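import Mathlib

/-!
Module M2 of MP_8eda11_ag: area inequality for a multivalued holomorphic function.
-/

set_option autoImplicit false

namespace Pool.Agent.Helper69.LinArea

open MeasureTheory Filter Topology Set Metric

theorem local_lip (Φ : ℂ × ℂ → ℂ) (a0 b0 : ℂ) (p0 : ℂ × ℂ)
    (hΦ : HasStrictFDerivAt Φ
      (a0 • ContinuousLinearMap.fst ℂ ℂ ℂ + b0 • ContinuousLinearMap.snd ℂ ℂ ℂ) p0)
    (ha : a0 ≠ 0) (hb : b0 ≠ 0) :
    ∃ V : Set (ℂ × ℂ), IsOpen V ∧ p0 ∈ V ∧ ∃ L : ℝ, ∀ p ∈ V, ∀ p' ∈ V, Φ p = 0 → Φ p' = 0 →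
      ‖p.2 - p'.2‖ ≤ L * ‖p.1 - p'.1‖ ∧ ‖p.1 - p'.1‖ ≤ L * ‖p.2 - p'.2‖ := by
  have hA : 0 < ‖a0‖ := norm_pos_iff.2 ha
  have hB : 0 < ‖b0‖ := norm_pos_iff.2 hb
  set ε : ℝ := min ‖a0‖ ‖b0‖ / 2 with hε
  have hεpos : 0 < ε := by rw [hε]; positivity
  have hεa : ε ≤ ‖a0‖ / 2 := by rw [hε]; linarith [min_le_left ‖a0‖ ‖b0‖]
  have hεb : ε ≤ ‖b0‖ / 2 := by rw [hε]; linarith [min_le_right ‖a0‖ ‖b0‖]
  have h1 := hΦ.isLittleO.def hεpos
  rw [Filter.Eventually, mem_nhds_prod_iff'] at h1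
  obtain ⟨U, W, hU, hpU, hW, hpW, hsub⟩ := h1
  refine ⟨U ∩ W, hU.inter hW, ⟨hpU, hpW⟩, 3 * ‖a0‖ / ‖b0‖ + 3 * ‖b0‖ / ‖a0‖, ?_⟩
  intro p hp p' hp' h0 h0'
  have h2 := hsub (Set.mk_mem_prod hp.1 hp'.2)
  simp only [Set.mem_ofPred_eq, h0, h0', sub_self, zero_sub, norm_neg] at h2
  have h3 : (a0 • ContinuousLinearMap.fst ℂ ℂ ℂ + b0 • ContinuousLinearMap.snd ℂ ℂ ℂ) (p - p') =
      a0 * (p.1 - p'.1) + b0 * (p.2 - p'.2) := by simp
  rw [h3] at h2
  set x := ‖p.1 - p'.1‖ with hx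
  set y := ‖p.2 - p'.2‖ with hy
  have hx0 : 0 ≤ x := norm_nonneg _
  have hy0 : 0 ≤ y := norm_nonneg _
  have h4 : ‖p - p'‖ ≤ x + y := by
    rw [Prod.norm_def]
    exact max_le (by simp only [Prod.fst_sub]; linarith) (by simp only [Prod.snd_sub]; linarith)
  have h5 : ‖a0 * (p.1 - p'.1) + b0 * (p.2 - p'.2)‖ ≤ ε * (x + y) :=
    h2.trans (mul_le_mul_of_nonneg_left h4 hεpos.le)
  have h6 : ‖b0‖ * y ≤ ‖a0 * (p.1 - p'.1) + b0 * (p.2 - p'.2)‖ + ‖a0‖ * x := by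
    have := norm_sub_le (a0 * (p.1 - p'.1) + b0 * (p.2 - p'.2)) (a0 * (p.1 - p'.1))
    rw [add_sub_cancel_left, norm_mul, norm_mul a0] at this
    exact this
  have h7 : ‖a0‖ * x ≤ ‖a0 * (p.1 - p'.1) + b0 * (p.2 - p'.2)‖ + ‖b0‖ * y := by
    have := norm_sub_le (a0 * (p.1 - p'.1) + b0 * (p.2 - p'.2)) (b0 * (p.2 - p'.2))
    rw [add_sub_cancel_right, norm_mul, norm_mul b0] at this
    exact this
  have k1 : y ≤ 3 * ‖a0‖ / ‖b0‖ * x := by
    rw [div_mul_eq_mul_div, le_div_iff₀ hB]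
    nlinarith
  have k2 : x ≤ 3 * ‖b0‖ / ‖a0‖ * y := by
    rw [div_mul_eq_mul_div, le_div_iff₀ hA]
    nlinarith
  have e1 : 0 ≤ 3 * ‖b0‖ / ‖a0‖ := by positivity
  have e2 : 0 ≤ 3 * ‖a0‖ / ‖b0‖ := by positivity
  constructor
  · rw [add_mul]
    have := mul_nonneg e1 hx0
    linarith
  · rw [add_mul]
    have := mul_nonneg e2 hy0
    linarith

theorem deriv_phi (Φ : ℂ × ℂ → ℂ) (a0 b0 t0 : ℂ) (φ : ℂ → ℂ)
    (hΦ : HasFDerivAt Φ
      (a0 • ContinuousLinearMap.fst ℂ ℂ ℂ + b0 • ContinuousLinearMap.snd ℂ ℂ ℂ) (t0, φ t0))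
    (hb : b0 ≠ 0) (S : Set ℂ) (L : ℝ) (hz : ∀ t ∈ S, Φ (t, φ t) = 0) (hz0 : Φ (t0, φ t0) = 0)
    (hL : ∀ t ∈ S, ‖φ t - φ t0‖ ≤ L * ‖t - t0‖) :
    HasDerivWithinAt φ (-(a0 / b0)) S t0 := by
  rw [hasDerivWithinAt_iff_isLittleO]
  have hO : (fun t => ((t, φ t) : ℂ × ℂ) - (t0, φ t0)) =O[𝓝[S] t0] (fun t => t - t0) := by
    apply Asymptotics.IsBigO.of_bound (max 1 L)
    filter_upwards [self_mem_nhdsWithin] with t ht
    rw [Prod.norm_def]
    apply max_le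
    · simp only [Prod.fst_sub]
      calc ‖t - t0‖ = 1 * ‖t - t0‖ := (one_mul _).symm
        _ ≤ max 1 L * ‖t - t0‖ := mul_le_mul_of_nonneg_right (le_max_left _ _) (norm_nonneg _)
    · simp only [Prod.snd_sub]
      exact (hL t ht).trans (mul_le_mul_of_nonneg_right (le_max_right _ _) (norm_nonneg _))
  have hten : Tendsto (fun t => ((t, φ t) : ℂ × ℂ)) (𝓝[S] t0) (𝓝 (t0, φ t0)) := by
    have h1 : Tendsto (fun t => ((t, φ t) : ℂ × ℂ) - (t0, φ t0)) (𝓝[S] t0) (𝓝 0) := by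
      apply hO.trans_tendsto
      have : Tendsto (fun t : ℂ => t - t0) (𝓝 t0) (𝓝 (t0 - t0)) :=
        (continuous_id.sub continuous_const).tendsto t0
      rw [sub_self] at this
      exact this.mono_left nhdsWithin_le_nhds
    have h2 := h1.add_const (t0, φ t0)
    simpa using h2
  have h1 := (hΦ.isLittleO.comp_tendsto hten).trans_isBigO hO
  have h2 := h1.const_mul_left (-(1 / b0))
  refine h2.congr' ?_ (EventuallyEq.refl _ _)
  filter_upwards [self_mem_nhdsWithin] with t ht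
  simp only [Function.comp, hz t ht, hz0]
  have h3 : (a0 • ContinuousLinearMap.fst ℂ ℂ ℂ + b0 • ContinuousLinearMap.snd ℂ ℂ ℂ)
      ((t, φ t) - (t0, φ t0)) = a0 * (t - t0) + b0 * (φ t - φ t0) := by simp
  rw [h3, smul_eq_mul]
  field_simp
  ring

theorem det_smulRight (c : ℂ) :
    ENNReal.ofReal |((ContinuousLinearMap.toSpanSingleton ℂ c).restrictScalars ℝ).det| =
      ‖c‖ₑ ^ 2 := by
  have h1 : ((ContinuousLinearMap.toSpanSingleton ℂ c).restrictScalars ℝ).det = ‖c‖ ^ 2 := by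
    simp [ContinuousLinearMap.det, LinearMap.det_restrictScalars, Algebra.norm_complex_eq,
      Complex.normSq_eq_norm_sq]
  rw [h1, abs_of_nonneg (by positivity), ENNReal.ofReal_pow (norm_nonneg _), ofReal_norm]

/-- one sheet -/
theorem one_sheet (Φ a b : ℂ × ℂ → ℂ) 
    (hΦ : ∀ p, HasStrictFDerivAt Φ
      (a p • ContinuousLinearMap.fst ℂ ℂ ℂ + b p • ContinuousLinearMap.snd ℂ ℂ ℂ) p)
    (ha : Continuous a) (hb : Continuous b)
    (D : Set (ℂ × ℂ)) (hD : MeasurableSet D) (hD0 : ∀ p ∈ D, Φ p = 0) (hDb : ∀ p ∈ D, b p ≠ 0)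
    (L : ℝ) (hL : ∀ p ∈ D, ∀ p' ∈ D, ‖p.2 - p'.2‖ ≤ L * ‖p.1 - p'.1‖ ∧
      ‖p.1 - p'.1‖ ≤ L * ‖p.2 - p'.2‖) (h : ℂ → ENNReal) (hh : Measurable h) :
    ∃ φ : ℂ → ℂ, MeasurableSet (Prod.fst '' D) ∧ MeasurableSet (Prod.snd '' D) ∧
      (∀ p ∈ D, φ p.1 = p.2) ∧
      AEMeasurable (fun t => h (φ t) * ‖a (t, φ t) / b (t, φ t)‖ₑ ^ 2)
        (volume.restrict (Prod.fst '' D)) ∧
      ∫⁻ t in Prod.fst '' D, h (φ t) * ‖a (t, φ t) / b (t, φ t)‖ₑ ^ 2 =
        ∫⁻ u in Prod.snd '' D, h u := by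
  classical
  have inj1 : InjOn Prod.fst D := by
    intro p hp p' hp' heq
    have := (hL p hp p' hp').1
    rw [heq, sub_self, norm_zero, mul_zero] at this
    have h2 : p.2 = p'.2 := by
      rw [← sub_eq_zero, ← norm_le_zero_iff]; exact this
    exact Prod.ext heq h2
  have inj2 : InjOn Prod.snd D := by
    intro p hp p' hp' heq
    have := (hL p hp p' hp').2
    rw [heq, sub_self, norm_zero, mul_zero] at this
    have h2 : p.1 = p'.1 := by
      rw [← sub_eq_zero, ← norm_le_zero_iff]; exact this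
    exact Prod.ext h2 heq
  have hS : MeasurableSet (Prod.fst '' D) :=
    hD.image_of_continuousOn_injOn continuous_fst.continuousOn inj1
  have hT : MeasurableSet (Prod.snd '' D) :=
    hD.image_of_continuousOn_injOn continuous_snd.continuousOn inj2
  have hex : ∃ φ : ℂ → ℂ, ∀ p ∈ D, φ p.1 = p.2 := by
    refine ⟨fun t => if ht : ∃ u, (t, u) ∈ D then ht.choose else 0, ?_⟩
    intro p hp
    have ht : ∃ u, (p.1, u) ∈ D := ⟨p.2, hp⟩
    simp only [dif_pos ht]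
    have := inj1 ht.choose_spec hp rfl
    exact congrArg Prod.snd this
  obtain ⟨φ, hφ⟩ := hex
  have hφD : ∀ t ∈ Prod.fst '' D, (t, φ t) ∈ D := by
    rintro t ⟨p, hp, rfl⟩
    rw [hφ p hp]
    exact hp
  have hφL : ∀ t ∈ Prod.fst '' D, ∀ t' ∈ Prod.fst '' D, ‖φ t - φ t'‖ ≤ L * ‖t - t'‖ :=
    fun t ht t' ht' => (hL _ (hφD t ht) _ (hφD t' ht')).1
  have hder : ∀ t ∈ Prod.fst '' D,
      HasDerivWithinAt φ (-(a (t, φ t) / b (t, φ t))) (Prod.fst '' D) t := by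
    intro t ht
    exact deriv_phi Φ _ _ t φ (hΦ (t, φ t)).hasFDerivAt (hDb _ (hφD t ht)) _ L
      (fun t' ht' => hD0 _ (hφD t' ht')) (hD0 _ (hφD t ht)) (fun t' ht' => hφL t' ht' t ht)
  have hcont : ContinuousOn φ (Prod.fst '' D) := fun t ht => (hder t ht).continuousWithinAt
  have hφm : AEMeasurable φ (volume.restrict (Prod.fst '' D)) := hcont.aemeasurable hS
  have himg : φ '' (Prod.fst '' D) = Prod.snd '' D := by
    ext u
    constructor
    · rintro ⟨t, ht, rfl⟩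
      exact ⟨_, hφD t ht, rfl⟩
    · rintro ⟨p, hp, rfl⟩
      exact ⟨p.1, ⟨p, hp, rfl⟩, hφ p hp⟩
  have hinj : InjOn φ (Prod.fst '' D) := by
    intro t ht t' ht' heq
    have := inj2 (hφD t ht) (hφD t' ht') heq
    exact congrArg Prod.fst this
  refine ⟨φ, hS, hT, hφ, ?_, ?_⟩
  · have h1 : AEMeasurable (fun t => (t, φ t)) (volume.restrict (Prod.fst '' D)) :=
      aemeasurable_id.prodMk hφm
    apply AEMeasurable.mul (hh.comp_aemeasurable hφm)
    apply AEMeasurable.pow_const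
    apply AEMeasurable.enorm
    exact (ha.measurable.comp_aemeasurable h1).div (hb.measurable.comp_aemeasurable h1)
  · have h1 := lintegral_image_eq_lintegral_abs_det_fderiv_mul volume hS
      (f := φ) (f' := fun t => (ContinuousLinearMap.toSpanSingleton ℂ
        (-(a (t, φ t) / b (t, φ t)))).restrictScalars ℝ)
      (fun t ht => (hder t ht).hasFDerivWithinAt.restrictScalars ℝ) hinj h
    rw [himg] at h1
    rw [h1]
    apply lintegral_congr
    intro t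
    rw [det_smulRight, enorm_neg, mul_comm]

/-- Module M2 -/
theorem area_ineq (Φ a b : ℂ × ℂ → ℂ) (ha : Continuous a) (hb : Continuous b)
    (hΦ : ∀ p, HasStrictFDerivAt Φ
      (a p • ContinuousLinearMap.fst ℂ ℂ ℂ + b p • ContinuousLinearMap.snd ℂ ℂ ℂ) p)
    (O : Set ℂ) (hO : IsOpen O) (hb0 : ∀ t ∈ O, ∀ u, Φ (t, u) = 0 → b (t, u) ≠ 0)
    (rts : ℂ → Finset ℂ) (hrts : ∀ t ∈ O, ∀ u, u ∈ rts t ↔ Φ (t, u) = 0)
    (K : ℕ) (hK : ∀ᵐ u : ℂ, ({t | t ∈ O ∧ Φ (t, u) = 0} : Set ℂ).encard ≤ K)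
    (h : ℂ → ENNReal) (hh : Measurable h) :
    ∫⁻ t in O, ∑ u ∈ rts t, h u * ‖a (t, u) / b (t, u)‖ₑ ^ 2 ≤ K * ∫⁻ u, h u := by
  classical
  have hΦc : Continuous Φ := continuous_iff_continuousAt.2 (fun p => (hΦ p).continuousAt)
  set C : Set (ℂ × ℂ) := {p | p.1 ∈ O ∧ Φ p = 0 ∧ a p ≠ 0} with hC
  have hCm : MeasurableSet C := by
    apply MeasurableSet.inter (hO.measurableSet.preimage measurable_fst)
    apply MeasurableSet.inter
    · exact (isClosed_singleton.preimage hΦc).measurableSet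
    · exact (isOpen_ne.preimage ha).measurableSet
  -- local pieces
  have hloc : ∀ p ∈ C, ∃ V : Set (ℂ × ℂ), IsOpen V ∧ p ∈ V ∧ ∃ L : ℝ, ∀ p ∈ V, ∀ p' ∈ V,
      Φ p = 0 → Φ p' = 0 → ‖p.2 - p'.2‖ ≤ L * ‖p.1 - p'.1‖ ∧ ‖p.1 - p'.1‖ ≤ L * ‖p.2 - p'.2‖ :=
    fun p hp => local_lip Φ (a p) (b p) p (hΦ p) hp.2.2 (hb0 p.1 hp.1 p.2 hp.2.1)
  choose! V hV1 hV2 hV3 using hloc
  obtain ⟨T, hTC, hTcount, hcov⟩ := TopologicalSpace.countable_cover_nhdsWithin (f := V) (s := C)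
    (fun p hp => mem_nhdsWithin_of_mem_nhds ((hV1 p hp).mem_nhds (hV2 p hp)))
  have hcs : (insert ∅ (V '' T) : Set (Set (ℂ × ℂ))).Countable := (hTcount.image V).insert _
  obtain ⟨e, he⟩ := hcs.exists_eq_range (Set.insert_nonempty _ _)
  have heo : ∀ i, IsOpen (e i) ∧ ∃ L : ℝ, ∀ p ∈ e i, ∀ p' ∈ e i,
      Φ p = 0 → Φ p' = 0 → ‖p.2 - p'.2‖ ≤ L * ‖p.1 - p'.1‖ ∧
        ‖p.1 - p'.1‖ ≤ L * ‖p.2 - p'.2‖ := by
    intro i
    have h1 : e i ∈ (insert ∅ (V '' T) : Set (Set (ℂ × ℂ))) := by rw [he]; exact ⟨i, rfl⟩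
    rcases h1 with h1 | ⟨p, hp, h1⟩
    · rw [h1]
      exact ⟨isOpen_empty, 0, fun p hp => absurd hp (Set.notMem_empty p)⟩
    · rw [← h1]
      exact ⟨hV1 p (hTC hp), hV3 p (hTC hp)⟩
  have hecov : C ⊆ ⋃ i, e i := by
    intro p hp
    have h1 := hcov hp
    rw [Set.mem_iUnion₂] at h1
    obtain ⟨q, hq, hpq⟩ := h1
    have h2 : V q ∈ Set.range e := by
      rw [← he]; exact Or.inr ⟨q, hq, rfl⟩
    obtain ⟨i, hi⟩ := h2
    exact Set.mem_iUnion.2 ⟨i, by rw [hi]; exact hpq⟩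
  set D : ℕ → Set (ℂ × ℂ) := fun i => C ∩ disjointed e i with hDdef
  have hDm : ∀ i, MeasurableSet (D i) := fun i =>
    hCm.inter (MeasurableSet.disjointed (fun j => (heo j).1.measurableSet) i)
  have hDcov : ∀ p ∈ C, ∃ i, p ∈ D i := by
    intro p hp
    have h1 := hecov hp
    rw [← iUnion_disjointed, Set.mem_iUnion] at h1
    obtain ⟨i, hi⟩ := h1
    exact ⟨i, hp, hi⟩
  have hDdisj : ∀ i j p, p ∈ D i → p ∈ D j → i = j := by
    intro i j p hi hj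
    by_contra hne
    exact Set.disjoint_left.1 (disjoint_disjointed e hne) hi.2 hj.2
  have hsheet : ∀ i, ∃ φ : ℂ → ℂ, MeasurableSet (Prod.fst '' D i) ∧
      MeasurableSet (Prod.snd '' D i) ∧ (∀ p ∈ D i, φ p.1 = p.2) ∧
      AEMeasurable (fun t => h (φ t) * ‖a (t, φ t) / b (t, φ t)‖ₑ ^ 2)
        (volume.restrict (Prod.fst '' D i)) ∧
      ∫⁻ t in Prod.fst '' D i, h (φ t) * ‖a (t, φ t) / b (t, φ t)‖ₑ ^ 2 =
        ∫⁻ u in Prod.snd '' D i, h u := by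
    intro i
    obtain ⟨L, hL⟩ := (heo i).2
    apply one_sheet Φ a b hΦ ha hb (D i) (hDm i) (fun p hp => hp.1.2.1)
      (fun p hp => hb0 p.1 hp.1.1 p.2 hp.1.2.1) L _ h hh
    intro p hp p' hp'
    exact hL p (disjointed_le e i hp.2) p' (disjointed_le e i hp'.2) hp.1.2.1 hp'.1.2.1
  choose φ hS hT hφ hmeas hint using hsheet
  set gg : ℕ → ℂ → ENNReal := fun i => (Prod.fst '' D i).indicator
    (fun t => h (φ i t) * ‖a (t, φ i t) / b (t, φ i t)‖ₑ ^ 2) with hgg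
  -- pointwise bound
  have hpt : ∀ t ∈ O, ∑ u ∈ rts t, h u * ‖a (t, u) / b (t, u)‖ₑ ^ 2 ≤ ∑' i, gg i t := by
    intro t ht
    set A := (rts t).filter (fun u => a (t, u) ≠ 0) with hA
    have h1 : ∑ u ∈ rts t, h u * ‖a (t, u) / b (t, u)‖ₑ ^ 2 =
        ∑ u ∈ A, h u * ‖a (t, u) / b (t, u)‖ₑ ^ 2 := by
      rw [hA, Finset.sum_filter]
      apply Finset.sum_congr rfl
      intro u _
      by_cases hau : a (t, u) = 0
      · rw [if_neg (by simpa using hau), hau]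
        simp
      · rw [if_pos hau]
    rw [h1]
    have hAC : ∀ u ∈ A, ∃ i, (t, u) ∈ D i := by
      intro u hu
      rw [hA, Finset.mem_filter] at hu
      exact hDcov _ ⟨ht, (hrts t ht u).1 hu.1, hu.2⟩
    choose! ι hι using hAC
    have hinj : Set.InjOn ι A := by
      intro u hu u' hu' heq
      have e1 := hφ _ _ (hι u hu)
      have e2 := hφ _ _ (hι u' hu')
      simp only at e1 e2
      rw [← e1, ← e2, heq]
    have h2 : ∑ u ∈ A, h u * ‖a (t, u) / b (t, u)‖ₑ ^ 2 = ∑ u ∈ A, gg (ι u) t := by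
      apply Finset.sum_congr rfl
      intro u hu
      have e1 := hφ _ _ (hι u hu)
      simp only at e1
      have hmem : t ∈ Prod.fst '' D (ι u) := ⟨_, hι u hu, rfl⟩
      simp only [hgg]
      rw [Set.indicator_of_mem hmem, e1]
    rw [h2, ← Finset.sum_image (f := fun i => gg i t) hinj]
    exact ENNReal.sum_le_tsum _
  have hggm : ∀ i, AEMeasurable (gg i) volume := fun i =>
    (aemeasurable_indicator_iff (hS i)).2 (hmeas i)
  calc ∫⁻ t in O, ∑ u ∈ rts t, h u * ‖a (t, u) / b (t, u)‖ₑ ^ 2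
      ≤ ∫⁻ t in O, ∑' i, gg i t := setLIntegral_mono' hO.measurableSet hpt
    _ ≤ ∫⁻ t, ∑' i, gg i t := setLIntegral_le_lintegral _ _
    _ = ∑' i, ∫⁻ t, gg i t := lintegral_tsum hggm
    _ = ∑' i, ∫⁻ u, (Prod.snd '' D i).indicator h u := by
        congr 1
        funext i
        rw [lintegral_indicator (hS i), lintegral_indicator (hT i)]
        exact hint i
    _ = ∫⁻ u, ∑' i, (Prod.snd '' D i).indicator h u :=
        (lintegral_tsum (fun i => (hh.indicator (hT i)).aemeasurable)).symm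
    _ ≤ ∫⁻ u, K * h u := by
        apply lintegral_mono_ae
        filter_upwards [hK] with u hu
        rw [ENNReal.tsum_eq_iSup_sum]
        apply iSup_le
        intro s
        simp only [Set.indicator_apply]
        rw [← Finset.sum_filter, Finset.sum_const, nsmul_eq_mul]
        apply mul_le_mul_left
        have hcard : (s.filter (fun i => u ∈ Prod.snd '' D i)).card ≤ K := by
          have h3 : ∀ i ∈ s.filter (fun i => u ∈ Prod.snd '' D i), ∃ t, (t, u) ∈ D i := by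
            intro i hi
            obtain ⟨p, hp, hpu⟩ := (Finset.mem_filter.1 hi).2
            exact ⟨p.1, by rw [← hpu]; exact hp⟩
          choose! τ hτ using h3
          have h4 : Set.InjOn τ (s.filter (fun i => u ∈ Prod.snd '' D i)) := by
            intro i hi j hj heq
            have e1 := hτ i hi
            have e2 := hτ j hj
            rw [← heq] at e2
            exact hDdisj i j _ e1 e2
          have h5 : (((s.filter (fun i => u ∈ Prod.snd '' D i)).image τ : Finset ℂ) : Set ℂ) ⊆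
              {t | t ∈ O ∧ Φ (t, u) = 0} := by
            intro t ht
            rw [Finset.mem_coe, Finset.mem_image] at ht
            obtain ⟨i, hi, rfl⟩ := ht
            have := hτ i hi
            exact ⟨this.1.1, this.1.2.1⟩
          have h6 := (Set.encard_le_encard h5).trans hu
          rw [Set.encard_coe_eq_coe_finsetCard, Finset.card_image_of_injOn h4] at h6
          exact_mod_cast h6
        exact_mod_cast hcard
    _ = K * ∫⁻ u, h u := lintegral_const_mul _ hh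

end Pool.Agent.Helper69.LinArea
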