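import Pool.Agent.Helper51.LinLineDefs
import Pool.Agent.Helper69.Lin.Area

/-!
Module LINE of MP_8eda11_ag: restriction to affine lines and area inequality for root
derivatives.
-/

set_option autoImplicit false

namespace Pool.Agent.Helper69.LinLine

open MeasureTheory Filter Topology Set Metric Polynomial Pool.Agent.Helper51.Lin

variable {M : ℕ} {R : (MvPolynomial (Fin M) ℂ)[X]}

lemma eval_linePoly (R : (MvPolynomial (Fin M) ℂ)[X]) (l₀ v : Fin M → ℂ) (c₀ c u t : ℂ) :
    (linePoly R l₀ v c₀ c u).eval t = Rf R (l₀ + t • v, u + (c₀ + t * c)) := by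
  unfold linePoly Rf spec
  set φ := (MvPolynomial.aeval (fun i => (C (l₀ i) + C (v i) * X : ℂ[X])) :
    MvPolynomial (Fin M) ℂ →ₐ[ℂ] ℂ[X]).toRingHom with hφ
  have h1 : eval t ((R.map φ).eval (C (u + c₀) + C c * X)) =
      ((R.map φ).map (evalRingHom t)).eval (eval t (C (u + c₀) + C c * X)) := by
    rw [Polynomial.eval_map (evalRingHom t)]
    exact (Polynomial.eval₂_at_apply (p := R.map φ) (evalRingHom t)
      (C (u + c₀) + C c * X)).symm
  rw [h1, Polynomial.map_map]
  congr 1
  · simp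
    ring
  · congr 1
    apply MvPolynomial.ringHom_ext
    · intro r; simp [hφ]
    · intro i
      simp [hφ]
      ring

lemma exists_natDegree_linePoly_le (R : (MvPolynomial (Fin M) ℂ)[X]) :
    ∃ K : ℕ, ∀ (l₀ v : Fin M → ℂ) (c₀ c u : ℂ), (linePoly R l₀ v c₀ c u).natDegree ≤ K := by
  refine ⟨(Finset.range (R.natDegree + 1)).sup (fun i => (R.coeff i).totalDegree) + R.natDegree,
    ?_⟩
  intro l₀ v c₀ c u
  unfold linePoly
  rw [Polynomial.eval_map, Polynomial.eval₂_eq_sum_range]
  apply Polynomial.natDegree_sum_le_of_forall_le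
  intro i hi
  refine (Polynomial.natDegree_mul_le).trans ?_
  have h1 : ((MvPolynomial.aeval (fun i => (C (l₀ i) + C (v i) * X : ℂ[X])) :
    MvPolynomial (Fin M) ℂ →ₐ[ℂ] ℂ[X]).toRingHom (R.coeff i)).natDegree ≤
      (R.coeff i).totalDegree * 1 := by
    apply MvPolynomial.aeval_natDegree_le _ le_rfl
    intro j
    compute_degree
  have h2 : ((C (u + c₀) + C c * X : ℂ[X]) ^ i).natDegree ≤ i := by
    refine (Polynomial.natDegree_pow_le).trans ?_
    have : (C (u + c₀) + C c * X : ℂ[X]).natDegree ≤ 1 := by compute_degree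
    calc i * (C (u + c₀) + C c * X : ℂ[X]).natDegree ≤ i * 1 := Nat.mul_le_mul_left _ this
      _ = i := mul_one i
  have h3 : (R.coeff i).totalDegree ≤
      (Finset.range (R.natDegree + 1)).sup (fun i => (R.coeff i).totalDegree) :=
    Finset.le_sup (f := fun i => (R.coeff i).totalDegree) hi
  rw [Finset.mem_range] at hi
  omega

theorem area_DR (hR : R.Monic) (l₀ v : Fin M → ℂ) (c₀ c : ℂ) (O : Set ℂ) (hO : IsOpen O)
    (hsep : ∀ t ∈ O, (spec R (l₀ + t • v)).Separable) (K : ℕ)
    (hK : ∀ u, (linePoly R l₀ v c₀ c u).natDegree ≤ K) (h : ℂ → ENNReal) (hh : Measurable h) :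
    ∫⁻ t in O, ∑ w ∈ rts R (l₀ + t • v),
      h (w - (c₀ + t * c)) * ‖DR R (l₀ + t • v, w) v - c‖ₑ ^ 2 ≤ K * ∫⁻ u, h u := by
  classical
  set A : ℂ × ℂ → (Fin M → ℂ) × ℂ := fun p => (l₀ + p.1 • v, p.2 + (c₀ + p.1 * c)) with hA
  set A' : ℂ × ℂ →L[ℂ] (Fin M → ℂ) × ℂ :=
    ((ContinuousLinearMap.fst ℂ ℂ ℂ).smulRight v).prod
      (ContinuousLinearMap.snd ℂ ℂ ℂ + c • ContinuousLinearMap.fst ℂ ℂ ℂ) with hA'
  have hAc : Continuous A := by
    rw [hA]; fun_prop
  have hAd : ∀ p, HasStrictFDerivAt A A' p := by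
    intro p
    have h1 : HasStrictFDerivAt (fun p : ℂ × ℂ => l₀ + p.1 • v)
        ((ContinuousLinearMap.fst ℂ ℂ ℂ).smulRight v) p :=
      (hasStrictFDerivAt_fst.smul_const v).const_add l₀
    have h2 : HasStrictFDerivAt (fun p : ℂ × ℂ => p.2 + (c₀ + p.1 * c))
        (ContinuousLinearMap.snd ℂ ℂ ℂ + c • ContinuousLinearMap.fst ℂ ℂ ℂ) p :=
      hasStrictFDerivAt_snd.add ((hasStrictFDerivAt_fst.mul_const c).const_add c₀)
    exact h1.prodMk h2
  set a : ℂ × ℂ → ℂ := fun p => fderiv ℂ (Rf R) (A p) (v, c) with ha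
  set b : ℂ × ℂ → ℂ := fun p => fderiv ℂ (Rf R) (A p) (0, 1) with hb
  have hac : Continuous a := (contDiff_fderiv_Rf R (v, c)).continuous.comp hAc
  have hbc : Continuous b := (contDiff_fderiv_Rf R (0, 1)).continuous.comp hAc
  have hΦ : ∀ p, HasStrictFDerivAt (fun p => Rf R (A p))
      (a p • ContinuousLinearMap.fst ℂ ℂ ℂ + b p • ContinuousLinearMap.snd ℂ ℂ ℂ) p := by
    intro p
    have h1 := (hasStrictFDerivAt_Rf R (A p)).comp p (hAd p)
    have h2 : (fderiv ℂ (Rf R) (A p)).comp A' =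
        a p • ContinuousLinearMap.fst ℂ ℂ ℂ + b p • ContinuousLinearMap.snd ℂ ℂ ℂ := by
      ext
      · simp [ha, hA']
      · simp [hb, hA']
    rw [← h2]
    exact h1
  set rts' : ℂ → Finset ℂ := fun t => (rts R (l₀ + t • v)).image (fun w => w - (c₀ + t * c))
    with hrts'
  have hr : ∀ t u, u ∈ rts' t ↔ Rf R (A (t, u)) = 0 := by
    intro t u
    simp only [hrts', Finset.mem_image, hA]
    constructor
    · rintro ⟨w, hw, rfl⟩
      rw [sub_add_cancel]
      exact (mem_rts hR _ _).1 hw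
    · intro h
      exact ⟨u + (c₀ + t * c), (mem_rts hR _ _).2 h, by ring⟩
  have main := Pool.Agent.Helper69.LinArea.area_ineq (fun p => Rf R (A p)) a b hac hbc hΦ O hO
    (by
      intro t ht u hu
      exact fderiv_Rf_snd_ne hR (hsep t ht) ((mem_rts hR _ _).2 hu))
    rts' (fun t _ u => hr t u) K
    (by
      rcases O.eq_empty_or_nonempty with hO0 | ⟨t0, ht0⟩
      · subst hO0
        apply Filter.Eventually.of_forall
        intro u
        simp
      · have hnull : ∀ᵐ u : ℂ, u ∉ (rts' t0 : Set ℂ) := by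
          rw [ae_iff]
          simp only [not_not]
          exact (rts' t0).finite_toSet.measure_zero _
        filter_upwards [hnull] with u hu
        have hne : linePoly R l₀ v c₀ c u ≠ 0 := by
          intro h0
          apply hu
          rw [Finset.mem_coe, hr, ← eval_linePoly, h0, eval_zero]
        have hsub : {t | t ∈ O ∧ Rf R (A (t, u)) = 0} ⊆
            ((linePoly R l₀ v c₀ c u).roots.toFinset : Set ℂ) := by
          rintro t ⟨_, ht⟩
          rw [Finset.mem_coe, Multiset.mem_toFinset, mem_roots hne, IsRoot, eval_linePoly]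
          exact ht
        refine (Set.encard_le_encard hsub).trans ?_
        rw [Set.encard_coe_eq_coe_finsetCard]
        have : (linePoly R l₀ v c₀ c u).roots.toFinset.card ≤ K :=
          ((Multiset.toFinset_card_le _).trans (card_roots' _)).trans (hK u)
        exact_mod_cast this)
    h hh
  refine le_trans (le_of_eq ?_) main
  apply setLIntegral_congr_fun hO.measurableSet
  intro t ht
  simp only [hrts']
  rw [Finset.sum_image (fun w _ w' _ h => by simpa using h)]
  apply Finset.sum_congr rfl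
  intro w hw
  have hAt : A (t, w - (c₀ + t * c)) = (l₀ + t • v, w) := by
    simp only [hA, sub_add_cancel]
  have hne := fderiv_Rf_snd_ne hR (hsep t ht) hw
  have hlin : fderiv ℂ (Rf R) (l₀ + t • v, w) (v, c) =
      fderiv ℂ (Rf R) (l₀ + t • v, w) (v, 0) + c * fderiv ℂ (Rf R) (l₀ + t • v, w) (0, 1) := by
    have : ((v, c) : (Fin M → ℂ) × ℂ) = (v, 0) + c • (0, 1) := by simp
    rw [this, map_add, map_smul, smul_eq_mul]
  have hdiv : a (t, w - (c₀ + t * c)) / b (t, w - (c₀ + t * c)) =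
      -(DR R (l₀ + t • v, w) v - c) := by
    simp only [ha, hb, hAt, hlin, DR]
    field_simp
    ring
  rw [hdiv, enorm_neg]

end Pool.Agent.Helper69.LinLine
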