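import Pool.Agent.Helper51.LinDefs
import Pool.Agent.Helper51.LinRoots

/-!
Module A0 of MP_8eda11_ag: algebraic reduction to the analytic core.
-/

set_option autoImplicit false

namespace Pool.Agent.Helper69.LinA0

open Polynomial Pool.Agent.Helper51.Lin

theorem univPoly_of_monic {S : Type*} [CommRing S] (n : ℕ) (p : S[X]) (hp : p.Monic)
    (hd : p.natDegree = n) : univPoly n (fun i : Fin n => p.coeff (n - 1 - (i : ℕ))) = p := by
  unfold univPoly
  conv_rhs => rw [hp.as_sum, hd]
  congr 1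
  rw [Fin.sum_univ_eq_sum_range (fun i => C (p.coeff (n - 1 - i)) * X ^ (n - 1 - i)) n]
  exact Finset.sum_range_reflect (fun i => C (p.coeff i) * X ^ i) n

theorem univPoly_sum {S : Type*} [CommRing S] (n : ℕ) (z : Fin n → S) :
    (∑ i : Fin n, C (z i) * (X : S[X]) ^ (n - 1 - (i : ℕ))).degree < n := by
  apply lt_of_le_of_lt (Polynomial.degree_sum_le _ _)
  rw [Finset.sup_lt_iff (by exact WithBot.bot_lt_coe n)]
  intro i _
  apply lt_of_le_of_lt (Polynomial.degree_C_mul_X_pow_le _ _)
  have := i.2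
  exact_mod_cast (by omega : n - 1 - (i : ℕ) < n)

theorem univPoly_monic {S : Type*} [CommRing S] (n : ℕ) (z : Fin n → S) :
    (univPoly n z).Monic := Polynomial.monic_X_pow_add (univPoly_sum n z)

theorem univPoly_natDegree {S : Type*} [CommRing S] [Nontrivial S] (n : ℕ) (z : Fin n → S) :
    (univPoly n z).natDegree = n := by
  unfold univPoly
  apply natDegree_eq_of_degree_eq_some
  rw [Polynomial.degree_add_eq_left_of_degree_lt, Polynomial.degree_X_pow]
  rw [Polynomial.degree_X_pow]
  exact univPoly_sum n z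

theorem univPoly_coeff {S : Type*} [CommRing S] (n : ℕ) (z : Fin n → S) (i : Fin n) :
    (univPoly n z).coeff (n - 1 - (i : ℕ)) = z i := by
  unfold univPoly
  have hi := i.2
  rw [coeff_add, coeff_X_pow, if_neg (by omega), zero_add, finsetSum_coeff]
  rw [Finset.sum_eq_single i]
  · rw [coeff_C_mul, coeff_X_pow, if_pos rfl, mul_one]
  · intro j _ hj
    rw [coeff_C_mul, coeff_X_pow, if_neg, mul_zero]
    intro h
    apply hj
    have := j.2
    apply Fin.ext
    omega
  · intro h; exact absurd (Finset.mem_univ _) h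

/-- generic product -/
noncomputable def PP (n : ℕ) : (MvPolynomial (Fin n) ℂ)[X] :=
  ∏ i : Fin n, (X - C (MvPolynomial.X i))

theorem PP_map {n : ℕ} {S : Type*} [CommRing S] (φ : MvPolynomial (Fin n) ℂ →+* S) :
    (PP n).map φ = ∏ i : Fin n, (X - C (φ (MvPolynomial.X i))) := by
  unfold PP
  rw [Polynomial.map_prod]
  simp

/-- elementary coefficients -/
noncomputable def ee (n : ℕ) (i : Fin n) : MvPolynomial (Fin n) ℂ := (PP n).coeff (n - 1 - (i : ℕ))

/-- Vieta map -/
noncomputable def VV (n : ℕ) (l : Fin n → ℂ) (i : Fin n) : ℂ := MvPolynomial.eval l (ee n i)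

theorem VV_eq (n : ℕ) (l : Fin n → ℂ) (i : Fin n) :
    VV n l i = (∏ i : Fin n, (X - C (l i)) : ℂ[X]).coeff (n - 1 - (i : ℕ)) := by
  unfold VV ee
  rw [← Polynomial.coeff_map, PP_map]
  simp

theorem univPoly_VV (n : ℕ) (l : Fin n → ℂ) :
    univPoly n (VV n l) = ∏ i : Fin n, (X - C (l i)) := by
  have h1 : VV n l = fun i : Fin n => (∏ i : Fin n, (X - C (l i)) : ℂ[X]).coeff (n - 1 - (i : ℕ)) :=
    funext (VV_eq n l)
  rw [h1]
  apply univPoly_of_monic
  · exact monic_prod_of_monic _ _ (fun i _ => monic_X_sub_C _)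
  · rw [natDegree_prod_of_monic _ _ (fun i _ => monic_X_sub_C _)]
    simp

theorem VV_surj (n : ℕ) (z : Fin n → ℂ) : ∃ l, VV n l = z := by
  have hs := (IsAlgClosed.splits (univPoly n z))
  have h1 := hs.eq_prod_roots_of_monic (univPoly_monic n z)
  have h2 : Multiset.card (univPoly n z).roots = n := by
    rw [← hs.natDegree_eq_card_roots, univPoly_natDegree]
  set L := (univPoly n z).roots.toList with hL
  have hLn : L.length = n := by rw [hL, Multiset.length_toList, h2]
  refine ⟨fun i => L.get (i.cast hLn.symm), ?_⟩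
  funext i
  rw [VV_eq, ← univPoly_coeff n z i]
  congr 1
  conv_rhs => rw [h1]
  have h3 : (univPoly n z).roots = (L : Multiset ℂ) := by rw [hL, Multiset.coe_toList]
  rw [h3, Multiset.map_coe, Multiset.prod_coe]
  have h4 : L = List.ofFn (fun i : Fin n => L.get (i.cast hLn.symm)) := by
    apply List.ext_get
    · simp [hLn]
    · intro k h1 h2
      simp
  conv_rhs => rw [h4]
  rw [List.map_ofFn, List.prod_ofFn]
  rfl

/-- pull back along the Vieta map -/
noncomputable def QQ (n : ℕ) (Q : (MvPolynomial (Fin n) ℂ)[X]) : (MvPolynomial (Fin n) ℂ)[X] :=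
  Q.map (MvPolynomial.aeval (ee n) : MvPolynomial (Fin n) ℂ →ₐ[ℂ] MvPolynomial (Fin n) ℂ).toRingHom

theorem spec_QQ (n : ℕ) (Q : (MvPolynomial (Fin n) ℂ)[X]) (l : Fin n → ℂ) :
    spec (QQ n Q) l = spec Q (VV n l) := by
  unfold spec QQ
  rw [Polynomial.map_map]
  congr 1
  apply MvPolynomial.ringHom_ext
  · intro r; simp
  · intro i; simp [VV]

theorem eval_eval (n : ℕ) (Q : (MvPolynomial (Fin n) ℂ)[X]) (l : Fin n → ℂ) (i : Fin n) :
    MvPolynomial.eval l (Q.eval (MvPolynomial.X i)) = (spec Q l).eval (l i) := by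
  unfold spec
  rw [Polynomial.eval_map]
  conv_rhs => rw [← MvPolynomial.eval_X (f := l) i]
  rw [Polynomial.eval₂_at_apply]

theorem QQ_swap (n : ℕ) (Q : (MvPolynomial (Fin n) ℂ)[X]) (π : Equiv.Perm (Fin n)) :
    (QQ n Q).map (MvPolynomial.rename π : MvPolynomial (Fin n) ℂ →ₐ[ℂ] _).toRingHom = QQ n Q := by
  unfold QQ
  rw [Polynomial.map_map]
  congr 1
  have hee : ∀ i, (MvPolynomial.rename π : MvPolynomial (Fin n) ℂ →ₐ[ℂ] _).toRingHom (ee n i) =
      ee n i := by
    intro i
    unfold ee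
    rw [← Polynomial.coeff_map, PP_map]
    congr 1
    unfold PP
    simp only [AlgHom.toRingHom_eq_coe, RingHom.coe_coe, MvPolynomial.rename_X]
    exact Equiv.prod_comp π (fun i => (X - C (MvPolynomial.X i) : (MvPolynomial (Fin n) ℂ)[X]))
  apply MvPolynomial.ringHom_ext
  · intro r; simp
  · intro i
    have := hee i
    simpa using this

theorem spec_eq_univPoly {n : ℕ} 
    (H : ∀ R : (MvPolynomial (Fin n) ℂ)[X], R.Monic →
      (∀ l : Fin n → ℂ, Function.Injective l → (spec R l).Separable) →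
      (∀ l : Fin n → ℂ, Function.Injective l → ∀ i, l i ∉ rts R l) → R.natDegree = 0)
    (Q : (MvPolynomial (Fin n) ℂ)[X]) (hQ : Q.Monic)
    (hsep : ∀ z : Fin n → ℂ, (univPoly n z).Separable → (spec Q z).Separable)
    (U : Set (Fin n → ℂ)) (hU : IsOpen U) (hne : U.Nonempty)
    (hjoint : ∀ z ∈ U, ∃ w, (univPoly n z).IsRoot w ∧ (spec Q z).IsRoot w) :
    ∀ z, spec Q z = univPoly n z := by
  classical
  have hQ' : (QQ n Q).Monic := hQ.map _
  set g : MvPolynomial (Fin n) ℂ := ∏ i, (QQ n Q).eval (MvPolynomial.X i) with hg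
  have hgl : ∀ l, VV n l ∈ U → MvPolynomial.eval l g = 0 := by
    intro l hl
    obtain ⟨w, hw1, hw2⟩ := hjoint _ hl
    rw [univPoly_VV] at hw1
    rw [IsRoot, eval_prod, Finset.prod_eq_zero_iff] at hw1
    obtain ⟨i, _, hi⟩ := hw1
    rw [eval_sub, eval_X, eval_C, sub_eq_zero] at hi
    rw [hg, map_prod]
    apply Finset.prod_eq_zero (Finset.mem_univ i)
    rw [eval_eval, spec_QQ, ← hi]
    exact hw2
  have hVc : Continuous (VV n) := by
    apply continuous_pi
    intro i
    exact MvPolynomial.continuous_eval _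
  obtain ⟨z0, hz0⟩ := hne
  obtain ⟨l0, hl0⟩ := VV_surj n z0
  have hopen : IsOpen (VV n ⁻¹' U) := hU.preimage hVc
  have hmem : l0 ∈ VV n ⁻¹' U := by rw [Set.mem_preimage, hl0]; exact hz0
  obtain ⟨r, hr, hball⟩ := Metric.isOpen_iff.1 hopen l0 hmem
  have hg0 : g = 0 := by
    apply MvPolynomial.funext_set (fun i => Metric.ball (l0 i) r)
    · intro i
      exact infinite_of_mem_nhds (l0 i) (Metric.ball_mem_nhds _ hr)
    · intro l hl
      rw [map_zero]
      apply hgl
      apply hball
      rw [← ball_pi l0 hr] at hl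
      exact hl
  rw [hg, Finset.prod_eq_zero_iff] at hg0
  obtain ⟨i0, _, hi0⟩ := hg0
  have hall : ∀ i, (QQ n Q).eval (MvPolynomial.X i) = 0 := by
    intro i
    have h1 := congrArg (MvPolynomial.rename (Equiv.swap i0 i) :
      MvPolynomial (Fin n) ℂ →ₐ[ℂ] _).toRingHom hi0
    rw [← Polynomial.eval₂_at_apply, ← Polynomial.eval_map, QQ_swap, map_zero] at h1
    simpa using h1
  have hdvd : PP n ∣ QQ n Q := by
    have h1 : PP n = ((Finset.univ.val.map (fun i : Fin n =>
        (MvPolynomial.X i : MvPolynomial (Fin n) ℂ))).map (fun a => X - C a)).prod := by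
      unfold PP
      rw [Multiset.map_map]
      rfl
    rw [h1, Multiset.prod_X_sub_C_dvd_iff_le_roots hQ'.ne_zero]
    rw [Multiset.le_iff_subset]
    · intro a ha
      rw [Multiset.mem_map] at ha
      obtain ⟨i, _, rfl⟩ := ha
      rw [Polynomial.mem_roots hQ'.ne_zero]
      exact hall i
    · apply Multiset.Nodup.map (MvPolynomial.X_injective)
      exact Finset.univ.nodup
  obtain ⟨R, hR⟩ := hdvd
  have hPm : (PP n).Monic := monic_prod_of_monic _ _ (fun i _ => monic_X_sub_C _)
  have hRm : R.Monic := by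
    apply Polynomial.Monic.of_mul_monic_left hPm
    rw [← hR]; exact hQ'
  have hPl : ∀ l, spec (PP n) l = ∏ i : Fin n, (X - C (l i)) := by
    intro l
    unfold spec
    rw [PP_map]
    simp
  have hfac : ∀ l, spec Q (VV n l) = (∏ i : Fin n, (X - C (l i))) * spec R l := by
    intro l
    rw [← spec_QQ, hR, ← hPl]
    unfold spec
    rw [Polynomial.map_mul]
  have hsepl : ∀ l : Fin n → ℂ, Function.Injective l →
      ((∏ i : Fin n, (X - C (l i))) * spec R l).Separable := by
    intro l hl
    rw [← hfac]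
    apply hsep
    rw [univPoly_VV, Polynomial.separable_prod_X_sub_C_iff]
    exact hl
  have hdeg : R.natDegree = 0 := by
    apply H R hRm
    · intro l hl
      exact (hsepl l hl).of_mul_right
    · intro l hl i hi
      have hc := (hsepl l hl).isCoprime
      obtain ⟨a, b, hab⟩ := hc
      have h1 := congrArg (Polynomial.eval (l i)) hab
      have h2 : (∏ i : Fin n, (X - C (l i))).eval (l i) = 0 := by
        rw [eval_prod]
        apply Finset.prod_eq_zero (Finset.mem_univ i)
        simp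
      have h3 : (spec R l).eval (l i) = 0 := by
        rw [rts, Multiset.mem_toFinset] at hi
        exact (Polynomial.mem_roots'.1 hi).2
      rw [eval_add, eval_mul, eval_mul, h2, h3] at h1
      simp at h1
  have hR1 : R = 1 := by
    rw [Polynomial.eq_C_of_natDegree_eq_zero hdeg]
    have h1 := hRm.coeff_natDegree
    rw [hdeg] at h1
    rw [h1, C_1]
  intro z
  obtain ⟨l, rfl⟩ := VV_surj n z
  rw [hfac, hR1, univPoly_VV]
  unfold spec
  rw [Polynomial.map_one, mul_one]

end Pool.Agent.Helper69.LinA0
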