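import Mathlib

/-!
Combinatorial core for module B1 of MP_8eda11_ag: equivariant averaging.
-/

set_option autoImplicit false

namespace Pool.Agent.Helper69.Lin

open Finset Function

/-- property package for the averaged multiplicity vectors -/
structure Pk {n : ℕ} {G : Type*} [Group G] {k : ℕ} {X : Fin k → Type*}
    [∀ j, MulAction G (X j)] (ρ : G →* Equiv.Perm (Fin n)) {𝒬 : Type*}
    (eqv : 𝒬 → Fin n → Fin n → Prop) (rel : 𝒬 → ∀ j, X j → X j → Prop)
    (u : (∀ j, X j) → Fin n → ℚ) : Prop where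
  ne : ∃ d, u d ≠ 0
  sum : ∀ d, ∑ i, u d i = 0
  equi : ∀ (g : G) d i, u (fun j => g • d j) (ρ g i) = u d i
  c2 : ∀ q j (y y' : X j), rel q j y y' → ∀ d (S : Finset (Fin n)),
    (∀ i i', i ∈ S → eqv q i i' → i' ∈ S) →
    ∑ i ∈ S, u (update d j y) i = ∑ i ∈ S, u (update d j y') i

section

variable {n : ℕ} {G : Type*} [Group G] {k : ℕ} {X : Fin k → Type*}
    [∀ j, MulAction G (X j)] {ρ : G →* Equiv.Perm (Fin n)} {𝒬 : Type*}
    {eqv : 𝒬 → Fin n → Fin n → Prop} {rel : 𝒬 → ∀ j, X j → X j → Prop}
    {u : (∀ j, X j) → Fin n → ℚ}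

theorem smul_update (g : G) (d : ∀ j, X j) (j : Fin k) (y : X j) :
    (fun l => g • (update d j y) l) = update (fun l => g • d l) j (g • y) := by
  ext l
  by_cases h : l = j
  · subst h; simp
  · simp [update_of_ne h]

theorem Pk.sumj [∀ j, Fintype (X j)] (hu : Pk ρ eqv rel u) (j : Fin k)
    (hne : ∃ d, ∑ y, u (update d j y) ≠ 0) :
    Pk ρ eqv rel (fun d => ∑ y, u (update d j y)) := by
  refine ⟨hne, ?_, ?_, ?_⟩
  · intro d
    simp only [Finset.sum_apply]
    rw [Finset.sum_comm]
    exact Finset.sum_eq_zero (fun y _ => hu.sum _)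
  · intro g d i
    simp only [Finset.sum_apply]
    rw [← Equiv.sum_comp (MulAction.toPerm g)]
    apply Finset.sum_congr rfl
    intro y _
    rw [MulAction.toPerm_apply, ← smul_update]
    exact hu.equi g _ i
  · intro q l y y' hr d S hS
    simp only [Finset.sum_apply]
    rw [Finset.sum_comm, Finset.sum_comm (s := S)]
    apply Finset.sum_congr rfl
    intro x _
    by_cases h : l = j
    · subst h
      simp only [update_idem]
    · rw [update_comm h, update_comm h]
      exact hu.c2 q l y y' hr _ S hS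

theorem stage1 [∀ j, Fintype (X j)] (m : ℕ) : ∀ (J : Finset (Fin k)), J.card ≤ m →
    ∀ u : (∀ j, X j) → Fin n → ℚ, Pk ρ eqv rel u →
    (∀ j, j ∉ J → ∀ d y, u (update d j y) = u d) →
    ∃ (u' : (∀ j, X j) → Fin n → ℚ) (J' : Finset (Fin k)), Pk ρ eqv rel u' ∧
      (∀ j, j ∉ J' → ∀ d y, u' (update d j y) = u' d) ∧
      (∀ j, j ∈ J' → ∀ d, ∑ y, u' (update d j y) = 0) := by
  induction m with
  | zero =>
    intro J hJ u hu hd
    refine ⟨u, J, hu, hd, ?_⟩
    have : J = ∅ := by rw [← Finset.card_eq_zero]; omega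
    subst this
    intro j hj
    simp at hj
  | succ m ih =>
    intro J hJ u hu hd
    by_cases h : ∀ j, j ∈ J → ∀ d, ∑ y, u (update d j y) = 0
    · exact ⟨u, J, hu, hd, h⟩
    · push Not at h
      obtain ⟨j, hj, hne⟩ := h
      refine ih (J.erase j) ?_ (fun d => ∑ y, u (update d j y)) (hu.sumj j hne) ?_
      · rw [Finset.card_erase_of_mem hj]; omega
      · intro l hl d y
        by_cases hlj : l = j
        · subst hlj
          simp only [update_idem]
        · have hl' : l ∉ J := fun h => hl (Finset.mem_erase.2 ⟨hlj, h⟩)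
          apply Finset.sum_congr rfl
          intro x _
          rw [update_comm hlj]
          exact hd l hl' _ _

theorem dep_eq {J : Finset (Fin k)} {α : Type*} {u : (∀ j, X j) → α}
    (hd : ∀ j, j ∉ J → ∀ d y, u (update d j y) = u d) (d d' : ∀ j, X j)
    (h : ∀ j ∈ J, d j = d' j) : u d = u d' := by
  classical
  have key : ∀ T : Finset (Fin k), Disjoint T J → u (T.piecewise d' d) = u d := by
    intro T
    induction T using Finset.induction_on with
    | empty => intro _; rw [Finset.piecewise_empty]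
    | insert a T ha ih =>
      intro hdis
      rw [Finset.disjoint_insert_left] at hdis
      rw [Finset.piecewise_insert, hd a hdis.1]
      exact ih hdis.2
  have h1 := key (Finset.univ \ J) Finset.sdiff_disjoint
  rw [← h1]
  congr 1
  ext j
  by_cases hj : j ∈ J
  · rw [Finset.piecewise_eq_of_notMem _ _ _ (by simp [hj]), h j hj]
  · rw [Finset.piecewise_eq_of_mem _ _ _ (by simp [hj])]

/-- a sum-zero vector supported on at most two places -/
theorem supp_eq (m : Fin n → ℚ) (hs : ∑ i, m i = 0) (hne : m ≠ 0) (A : Finset (Fin n))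
    (hA : A.card ≤ 2) (hsub : ∀ i, i ∉ A → m i = 0) :
    Finset.univ.filter (fun i => m i ≠ 0) = A := by
  apply Finset.eq_of_subset_of_card_le
  · intro i hi
    by_contra h
    exact (Finset.mem_filter.1 hi).2 (hsub i h)
  · refine hA.trans ?_
    by_contra hlt
    push Not at hlt
    have h1 : (Finset.univ.filter (fun i => m i ≠ 0)).card = 0 ∨
        (Finset.univ.filter (fun i => m i ≠ 0)).card = 1 := by omega
    rcases h1 with h1 | h1
    · rw [Finset.card_eq_zero] at h1
      apply hne
      ext i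
      by_contra h
      have : i ∈ Finset.univ.filter (fun i => m i ≠ 0) :=
        Finset.mem_filter.2 ⟨Finset.mem_univ _, h⟩
      rw [h1] at this
      simp at this
    · rw [Finset.card_eq_one] at h1
      obtain ⟨a, ha⟩ := h1
      have h2 : m a ≠ 0 := by
        have : a ∈ Finset.univ.filter (fun i => m i ≠ 0) := by rw [ha]; simp
        exact (Finset.mem_filter.1 this).2
      apply h2
      rw [← hs]
      symm
      apply Finset.sum_eq_single a
      · intro b _ hb
        by_contra h
        have : b ∈ Finset.univ.filter (fun i => m i ≠ 0) :=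
          Finset.mem_filter.2 ⟨Finset.mem_univ _, h⟩
        rw [ha, Finset.mem_singleton] at this
        exact hb this
      · intro h; exact absurd (Finset.mem_univ _) h

theorem Pk.c3 (hu : Pk ρ eqv rel u)
    (K2 : ∀ j (y y' : X j), y ≠ y' → ∃ q, rel q j y y' ∧ ∃ a b : Fin n, ∀ i i', i ≠ i' →
      eqv q i i' → (i = a ∧ i' = b) ∨ (i = b ∧ i' = a)) (j : Fin k) (y y' : X j) :
    ∃ A : Finset (Fin n), A.card ≤ 2 ∧
      ∀ d i, i ∉ A → u (update d j y) i = u (update d j y') i := by
  by_cases h : y = y'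
  · subst h
    exact ⟨∅, by simp, fun _ _ _ => rfl⟩
  · obtain ⟨q, hq, a, b, hab⟩ := K2 j y y' h
    refine ⟨{a, b}, Finset.card_le_two, ?_⟩
    intro d i hi
    have := hu.c2 q j y y' hq d {i} (by
      intro i1 i2 h1 h2
      rw [Finset.mem_singleton] at h1 ⊢
      subst h1
      by_contra hne
      apply hi
      rcases hab i1 i2 (fun h => hne h.symm) h2 with h3 | h3
      · simp [h3.1]
      · simp [h3.1])
    simpa using this

theorem gen0 {Y Z : Type*} [Fintype Y] [Fintype Z] (U : Y → Z → ℚ) (y0 : Y) (x0 : Z)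
    (h : ∀ y x, U y x - U y0 x - U y x0 + U y0 x0 = 0) (hY : ∀ x, ∑ y, U y x = 0)
    (hZ : ∀ y, ∑ x, U y x = 0) : ∀ y x, U y x = 0 := by
  have hcY : (0 : ℚ) < Fintype.card Y := by
    exact_mod_cast Fintype.card_pos_iff.2 ⟨y0⟩
  have hcZ : (0 : ℚ) < Fintype.card Z := by
    exact_mod_cast Fintype.card_pos_iff.2 ⟨x0⟩
  -- sum over x
  have h1 : ∀ y, - U y x0 + U y0 x0 = 0 := by
    intro y
    have h2 : ∑ x, (U y x - U y0 x - U y x0 + U y0 x0) = 0 :=
      Finset.sum_eq_zero (fun x _ => h y x)
    rw [Finset.sum_add_distrib, Finset.sum_sub_distrib, Finset.sum_sub_distrib, hZ, hZ,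
      Finset.sum_const, Finset.sum_const, Finset.card_univ, nsmul_eq_mul, nsmul_eq_mul] at h2
    have h3 : (Fintype.card Z : ℚ) * (- U y x0 + U y0 x0) = 0 := by linarith
    exact (mul_eq_zero.1 h3).resolve_left hcZ.ne'
  have h4 : U y0 x0 = 0 := by
    have h5 : ∑ y, (- U y x0 + U y0 x0) = 0 := Finset.sum_eq_zero (fun y _ => h1 y)
    rw [Finset.sum_add_distrib, Finset.sum_neg_distrib, hY, Finset.sum_const, Finset.card_univ,
      nsmul_eq_mul] at h5
    have h6 : (Fintype.card Y : ℚ) * U y0 x0 = 0 := by linarith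
    exact (mul_eq_zero.1 h6).resolve_left hcY.ne'
  have h7 : ∀ y, U y x0 = 0 := fun y => by have := h1 y; linarith
  have h8 : ∀ y x, U y x = U y0 x := fun y x => by
    have := h y x
    rw [h7 y, h4] at this
    linarith
  have h9 : ∀ x, U y0 x = 0 := by
    intro x
    have := hY x
    rw [Finset.sum_congr rfl (fun y _ => h8 y x), Finset.sum_const, Finset.card_univ,
      nsmul_eq_mul] at this
    exact (mul_eq_zero.1 this).resolve_left hcY.ne'
  intro y x
  rw [h8, h9]

theorem lemmaA [∀ j, Fintype (X j)] (hn : 3 ≤ n) (hρ : Function.Surjective ρ)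
    (hu : Pk ρ eqv rel u)
    (c3 : ∀ j (y y' : X j), ∃ A : Finset (Fin n), A.card ≤ 2 ∧
      ∀ d i, i ∉ A → u (update d j y) i = u (update d j y') i)
    {j l : Fin k} (hjl : j ≠ l) (hj : ∀ d, ∑ y, u (update d j y) = 0)
    (hl : ∀ d, ∑ x, u (update d l x) = 0) : False := by
  classical
  choose A hA1 hA2 using c3
  obtain ⟨d0, hd0⟩ := hu.ne
  set y0 := d0 j with hy0
  set x0 := d0 l with hx0
  set U : (∀ j, X j) → X j → X l → Fin n → ℚ := fun d y x => u (update (update d j y) l x) with hU
  set M : (∀ j, X j) → X j → X l → Fin n → ℚ := fun d y x =>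
    U d y x - U d y0 x - U d y x0 + U d y0 x0 with hM
  have hUj : ∀ d y y' x i, i ∉ A j y y' → U d y x i = U d y' x i := by
    intro d y y' x i hi
    simp only [hU]
    rw [update_comm hjl, update_comm hjl]
    exact hA2 j y y' _ i hi
  have hUl : ∀ d y x x' i, i ∉ A l x x' → U d y x i = U d y x' i := by
    intro d y x x' i hi
    exact hA2 l x x' _ i hi
  have hMsum : ∀ d y x, ∑ i, M d y x i = 0 := by
    intro d y x
    simp only [hM, Pi.add_apply, Pi.sub_apply, Finset.sum_add_distrib, Finset.sum_sub_distrib]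
    simp only [hU, hu.sum]
    simp
  have gen : ∀ A' : Finset (Fin n), (∀ d y x i, i ∉ A' → M d y x i = 0) →
      ∀ d i, i ∉ A' → u d i = 0 := by
    intro A' hA' d i hi
    have h1 := gen0 (fun y x => U d y x i) y0 x0 (fun y x => hA' d y x i hi)
      (fun x => by
        have := congrFun (hj (update d l x)) i
        rw [Finset.sum_apply] at this
        simp only [hU]
        rw [← Pi.zero_apply (M := fun _ : Fin n => ℚ) i, ← this]
        apply Finset.sum_congr rfl
        intro y _
        rw [update_comm hjl])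
      (fun y => by
        have := congrFun (hl (update d j y)) i
        rw [Finset.sum_apply] at this
        exact this)
    have h2 := h1 (d j) (d l)
    simp only [hU] at h2
    rwa [update_eq_self, update_eq_self] at h2
  -- some M is nonzero
  have hex : ∃ d1 y1 x1, M d1 y1 x1 ≠ 0 := by
    by_contra hno
    push Not at hno
    apply hd0
    ext i
    exact gen ∅ (fun d y x i _ => by rw [hno]; rfl) d0 i (by simp)
  obtain ⟨d1, y1, x1, hM1⟩ := hex
  have hMj : ∀ d y x, M d y x ≠ 0 → Finset.univ.filter (fun i => M d y x i ≠ 0) = A j y y0 := by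
    intro d y x hne
    apply supp_eq _ (hMsum _ _ _) hne _ (hA1 _ _ _)
    intro i hi
    simp only [hM, Pi.add_apply, Pi.sub_apply]
    rw [hUj d y y0 x i hi, hUj d y y0 x0 i hi]
    ring
  have hMl : ∀ d y x, M d y x ≠ 0 → Finset.univ.filter (fun i => M d y x i ≠ 0) = A l x x0 := by
    intro d y x hne
    apply supp_eq _ (hMsum _ _ _) hne _ (hA1 _ _ _)
    intro i hi
    simp only [hM, Pi.add_apply, Pi.sub_apply]
    rw [hUl d y x x0 i hi, hUl d y0 x x0 i hi]
    ring
  have hA0 : ∀ d y x i, i ∉ A j y1 y0 → M d y x i = 0 := by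
    intro d2 y2 x2 i hi
    by_contra hne
    have hM2 : M d2 y2 x2 ≠ 0 := by
      intro h; rw [h] at hne; exact hne rfl
    have hi2 : i ∈ A j y2 y0 := by
      rw [← hMj d2 y2 x2 hM2]
      exact Finset.mem_filter.2 ⟨Finset.mem_univ _, hne⟩
    have hdiff : A j y1 y0 ≠ A j y2 y0 := by
      intro h; rw [h] at hi; exact hi hi2
    have e1 : A l x1 x0 = A j y1 y0 := by rw [← hMj _ _ _ hM1, hMl _ _ _ hM1]
    have e2 : A l x2 x0 = A j y2 y0 := by rw [← hMj _ _ _ hM2, hMl _ _ _ hM2]
    have z1 : ∀ d, M d y2 x1 = 0 := by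
      intro d
      by_contra h
      have := (hMj _ _ _ h).symm.trans (hMl _ _ _ h)
      rw [e1] at this
      exact hdiff this.symm
    have z2 : ∀ d, M d y1 x2 = 0 := by
      intro d
      by_contra h
      have := (hMj _ _ _ h).symm.trans (hMl _ _ _ h)
      rw [e2] at this
      exact hdiff this
    have hN : ∀ d x i, i ∉ A j y1 y2 → M d y1 x i - M d y2 x i = 0 := by
      intro d x i hi
      simp only [hM, Pi.add_apply, Pi.sub_apply]
      rw [hUj d y1 y2 x i hi, hUj d y1 y2 x0 i hi]
      ring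
    have f1 : Finset.univ.filter (fun i => M d1 y1 x1 i ≠ 0) = A j y1 y2 := by
      apply supp_eq _ (hMsum _ _ _) hM1 _ (hA1 _ _ _)
      intro i hi
      have := hN d1 x1 i hi
      rw [z1 d1] at this
      simpa using this
    have f2 : Finset.univ.filter (fun i => M d2 y2 x2 i ≠ 0) = A j y1 y2 := by
      apply supp_eq _ (hMsum _ _ _) hM2 _ (hA1 _ _ _)
      intro i hi
      have := hN d2 x2 i hi
      rw [z2 d2] at this
      simpa using this
    apply hdiff
    rw [← hMj _ _ _ hM1, ← hMj _ _ _ hM2, f1, f2]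
  have hfin := gen (A j y1 y0) hA0
  obtain ⟨b, hb⟩ : ∃ b, u d0 b ≠ 0 := by
    by_contra h
    push Not at h
    exact hd0 (funext h)
  have hbA : b ∈ A j y1 y0 := by
    by_contra h
    exact hb (hfin d0 b h)
  obtain ⟨h, hh⟩ : ∃ h, h ∉ A j y1 y0 := by
    by_contra hall
    push Not at hall
    have h1 : (A j y1 y0) = Finset.univ := Finset.eq_univ_of_forall hall
    have h2 := hA1 j y1 y0
    rw [h1, Finset.card_univ, Fintype.card_fin] at h2
    omega
  obtain ⟨g, hg⟩ := hρ (Equiv.swap b h)
  have h3 := hu.equi g d0 b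
  rw [hg, Equiv.swap_apply_left, hfin _ h hh] at h3
  exact hb h3.symm

theorem form_of (w0 : Fin n → ℚ) (hn : 4 ≤ n)
    (hperm : ∀ π : Equiv.Perm (Fin n), ∃ A : Finset (Fin n), A.card ≤ 2 ∧
      ∀ i, i ∉ A → w0 (π i) = w0 i) : ∃ i t, ∀ c, c ≠ i → w0 c = t := by
  classical
  by_cases hconst : ∀ a b, w0 a = w0 b
  · exact ⟨⟨0, by omega⟩, w0 ⟨0, by omega⟩, fun c _ => hconst _ _⟩
  push Not at hconst
  obtain ⟨a, b, hab⟩ := hconst
  have hab' : a ≠ b := fun h => hab (by rw [h])
  have three : ∀ A : Finset (Fin n), ∀ x y z, x ≠ y → x ≠ z → y ≠ z → x ∈ A → y ∈ A → z ∈ A →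
      2 < A.card := by
    intro A x y z h1 h2 h3 h4 h5 h6
    have : ({x, y, z} : Finset (Fin n)).card = 3 := by
      rw [Finset.card_insert_of_notMem, Finset.card_insert_of_notMem, Finset.card_singleton]
      · simpa using h3
      · simp [h1, h2]
    have h7 : ({x, y, z} : Finset (Fin n)) ⊆ A := by
      intro w hw
      simp only [Finset.mem_insert, Finset.mem_singleton] at hw
      rcases hw with rfl | rfl | rfl <;> assumption
    have := Finset.card_le_card h7
    omega
  -- no third value
  have h3 : ∀ c, w0 c = w0 a ∨ w0 c = w0 b := by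
    intro c
    by_contra hc
    push Not at hc
    obtain ⟨hca, hcb⟩ := hc
    have hca' : c ≠ a := fun h => hca (by rw [h])
    have hcb' : c ≠ b := fun h => hcb (by rw [h])
    obtain ⟨A, hA, hA2⟩ := hperm (Equiv.swap a b * Equiv.swap b c)
    have p1 : (Equiv.swap a b * Equiv.swap b c) a = b := by
      rw [Equiv.Perm.mul_apply, Equiv.swap_apply_of_ne_of_ne hab' hca'.symm, Equiv.swap_apply_left]
    have p2 : (Equiv.swap a b * Equiv.swap b c) b = c := by
      rw [Equiv.Perm.mul_apply, Equiv.swap_apply_left, Equiv.swap_apply_of_ne_of_ne hca' hcb']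
    have p3 : (Equiv.swap a b * Equiv.swap b c) c = a := by
      rw [Equiv.Perm.mul_apply, Equiv.swap_apply_right, Equiv.swap_apply_right]
    have q1 : a ∈ A := by
      by_contra h; have := hA2 a h; rw [p1] at this; exact hab this.symm
    have q2 : b ∈ A := by
      by_contra h; have := hA2 b h; rw [p2] at this; exact hcb this
    have q3 : c ∈ A := by
      by_contra h; have := hA2 c h; rw [p3] at this; exact hca this.symm
    have := three A a b c hab' hca'.symm hcb'.symm q1 q2 q3
    omega
  by_cases hP : ∃ c, c ≠ a ∧ w0 c = w0 a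
  · by_cases hQ : ∃ e, e ≠ b ∧ w0 e = w0 b
    · exfalso
      obtain ⟨c, hc1, hc2⟩ := hP
      obtain ⟨e, he1, he2⟩ := hQ
      have hcb : c ≠ b := fun h => hab (by rw [← hc2, h])
      have hea : e ≠ a := fun h => hab (by rw [← he2, h])
      have hce : c ≠ e := fun h => hab (by rw [← hc2, ← he2, h])
      obtain ⟨A, hA, hA2⟩ := hperm (Equiv.swap a b * Equiv.swap c e)
      have p1 : (Equiv.swap a b * Equiv.swap c e) a = b := by
        rw [Equiv.Perm.mul_apply, Equiv.swap_apply_of_ne_of_ne hc1.symm hea.symm,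
          Equiv.swap_apply_left]
      have p2 : (Equiv.swap a b * Equiv.swap c e) b = a := by
        rw [Equiv.Perm.mul_apply, Equiv.swap_apply_of_ne_of_ne hcb.symm he1.symm,
          Equiv.swap_apply_right]
      have p3 : (Equiv.swap a b * Equiv.swap c e) c = e := by
        rw [Equiv.Perm.mul_apply, Equiv.swap_apply_left, Equiv.swap_apply_of_ne_of_ne hea he1]
      have q1 : a ∈ A := by
        by_contra h; have := hA2 a h; rw [p1] at this; exact hab this.symm
      have q2 : b ∈ A := by
        by_contra h; have := hA2 b h; rw [p2] at this; exact hab this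
      have q3 : c ∈ A := by
        by_contra h; have := hA2 c h; rw [p3, he2, hc2] at this; exact hab this.symm
      have := three A a b c hab' hc1.symm hcb.symm q1 q2 q3
      omega
    · push Not at hQ
      refine ⟨b, w0 a, ?_⟩
      intro c hc
      rcases h3 c with h | h
      · exact h
      · exact absurd h (hQ c hc)
  · push Not at hP
    refine ⟨a, w0 b, ?_⟩
    intro c hc
    rcases h3 c with h | h
    · exact absurd h (hP c hc)
    · exact h

theorem core [∀ j, Fintype (X j)] (hn : 4 ≤ n) (hρ : Function.Surjective ρ)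
    (hrefl : ∀ q i, eqv q i i) (htrans : ∀ q i i' i'', eqv q i i' → eqv q i' i'' → eqv q i i'')
    (K2 : ∀ j (y y' : X j), y ≠ y' → ∃ q, rel q j y y' ∧ ∃ a b : Fin n, ∀ i i', i ≠ i' →
      eqv q i i' → (i = a ∧ i' = b) ∨ (i = b ∧ i' = a))
    (hu : Pk ρ eqv rel u) :
    ∃ j, ∃ i1 : X j → Fin n, (∀ (g : G) y, i1 (g • y) = ρ g (i1 y)) ∧
      (∀ q y y', rel q j y y' → eqv q (i1 y) (i1 y')) := by
  classical
  obtain ⟨w, J, hw, hdep, hz⟩ := stage1 (Finset.univ : Finset (Fin k)).card Finset.univ le_rfl u hu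
    (fun j hj => absurd (Finset.mem_univ _) hj)
  have c3 := fun j (y y' : X j) => hw.c3 K2 j y y'
  obtain ⟨d0, hd0⟩ := hw.ne
  have hnQ : (0 : ℚ) < n := by exact_mod_cast (by omega : 0 < n)
  -- J nonempty
  have hJ0 : J.Nonempty := by
    by_contra hJ
    rw [Finset.not_nonempty_iff_eq_empty] at hJ
    subst hJ
    have hc : ∀ i i', w d0 i = w d0 i' := by
      intro i i'
      obtain ⟨g, hg⟩ := hρ (Equiv.swap i i')
      have h1 := hw.equi g d0 i
      rw [hg, Equiv.swap_apply_left] at h1
      rw [← h1]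
      exact congrFun (dep_eq hdep _ _ (by simp)) i'
    apply hd0
    ext i
    have h2 := hw.sum d0
    rw [Finset.sum_congr rfl (fun i' _ => hc i' i), Finset.sum_const, Finset.card_univ,
      Fintype.card_fin, nsmul_eq_mul] at h2
    exact (mul_eq_zero.1 h2).resolve_left hnQ.ne'
  obtain ⟨j, hj⟩ := hJ0
  have hJ1 : ∀ l ∈ J, l = j := by
    intro l hl
    by_contra hne
    exact lemmaA (by omega) hρ hw c3 hne (hz l hl) (hz j hj)
  have hdj : ∀ d d' : (∀ j, X j), d j = d' j → w d = w d' := by
    intro d d' h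
    apply dep_eq hdep
    intro l hl
    have := hJ1 l hl
    subst this
    exact h
  set W : X j → Fin n → ℚ := fun y => w (update d0 j y) with hW
  have hWeq : ∀ (g : G) y i, W (g • y) (ρ g i) = W y i := by
    intro g y i
    have h1 := hw.equi g (update d0 j y) i
    simp only [hW]
    rw [← h1, smul_update]
    exact congrFun (hdj _ _ (by simp)) _
  have hW3 : ∀ y y', ∃ A : Finset (Fin n), A.card ≤ 2 ∧ ∀ i, i ∉ A → W y i = W y' i := by
    intro y y'
    obtain ⟨A, hA, hA2⟩ := c3 j y y'
    exact ⟨A, hA, fun i hi => hA2 d0 i hi⟩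
  have hform : ∀ y, ∃ i t, ∀ c, c ≠ i → W y c = t := by
    intro y
    apply form_of _ hn
    intro π
    obtain ⟨g, hg⟩ := hρ π⁻¹
    obtain ⟨A, hA, hA2⟩ := hW3 (g • y) y
    refine ⟨A, hA, fun i hi => ?_⟩
    rw [← hA2 i hi, ← hWeq g y (π i), hg]
    simp
  choose i1 t ht using hform
  have hsumW : ∀ y, ∑ i, W y i = 0 := fun y => hw.sum _
  have hWi1 : ∀ y, W y (i1 y) = - ((n : ℚ) - 1) * t y := by
    intro y
    have h1 := hsumW y
    rw [← Finset.add_sum_erase _ _ (Finset.mem_univ (i1 y)),
      Finset.sum_congr rfl (fun c hc => ht y c (Finset.ne_of_mem_erase hc)), Finset.sum_const,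
      Finset.card_erase_of_mem (Finset.mem_univ _), Finset.card_univ, Fintype.card_fin,
      nsmul_eq_mul, Nat.cast_sub (by omega)] at h1
    push_cast at h1
    linarith
  -- nonzero one
  set y0 := d0 j with hy0
  have hWy0 : W y0 = w d0 := by simp only [hW, hy0, update_eq_self]
  have ht0 : t y0 ≠ 0 := by
    intro h0
    apply hd0
    rw [← hWy0]
    ext i
    by_cases hi : i = i1 y0
    · rw [hi, hWi1, h0]; simp
    · rw [ht y0 i hi, h0]; rfl
  -- two different elements avoiding two given ones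
  have havoid : ∀ a b : Fin n, ∃ c e : Fin n, c ≠ e ∧ c ≠ a ∧ c ≠ b ∧ e ≠ a ∧ e ≠ b := by
    intro a b
    have h1 : 1 < ((Finset.univ : Finset (Fin n)) \ {a, b}).card := by
      have h2 := Finset.card_sdiff_add_card (Finset.univ : Finset (Fin n)) {a, b}
      have h3 : ({a, b} : Finset (Fin n)).card ≤ 2 := Finset.card_le_two
      rw [Finset.union_eq_left.2 (Finset.subset_univ _), Finset.card_univ, Fintype.card_fin] at h2
      omega
    rw [Finset.one_lt_card] at h1
    obtain ⟨c, hc, e, he, hce⟩ := h1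
    simp only [Finset.mem_sdiff, Finset.mem_univ, true_and, Finset.mem_insert,
      Finset.mem_singleton, not_or] at hc he
    exact ⟨c, e, hce, hc.1, hc.2, he.1, he.2⟩
  have htt : ∀ y, t y = t y0 := by
    intro y
    -- choose g with ρ g (i1 y0) ≠ i1 y
    obtain ⟨i', hi', -⟩ : ∃ i' : Fin n, i' ≠ i1 y ∧ True := by
      obtain ⟨c, e, _, hc, _⟩ := havoid (i1 y) (i1 y)
      exact ⟨c, hc, trivial⟩
    obtain ⟨g, hg⟩ := hρ (Equiv.swap (i1 y0) i')
    have hWg : ∀ c, c ≠ i' → W (g • y0) c = t y0 := by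
      intro c hc
      have h1 := hWeq g y0 ((ρ g).symm c)
      rw [Equiv.apply_symm_apply] at h1
      rw [h1]
      apply ht
      intro h2
      apply hc
      have h3 : c = ρ g (i1 y0) := by rw [← h2, Equiv.apply_symm_apply]
      rw [h3, hg, Equiv.swap_apply_left]
    obtain ⟨A, hA, hA2⟩ := hW3 y (g • y0)
    obtain ⟨c, e, hce, hc1, hc2, he1, he2⟩ := havoid (i1 y) i'
    by_contra hne
    have hcA : c ∈ A := by
      by_contra h
      have := hA2 c h
      rw [ht y c hc1, hWg c hc2] at this
      exact hne this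
    have heA : e ∈ A := by
      by_contra h
      have := hA2 e h
      rw [ht y e he1, hWg e he2] at this
      exact hne this
    have hAeq : A = {c, e} := by
      symm
      apply Finset.eq_of_subset_of_card_le
      · intro x hx
        simp only [Finset.mem_insert, Finset.mem_singleton] at hx
        rcases hx with rfl | rfl <;> assumption
      · rw [Finset.card_pair hce]; exact hA
    have h1 : ∑ i, (W y i - W (g • y0) i) = 0 := by
      rw [Finset.sum_sub_distrib, hsumW, hsumW]; simp
    have h2 : ∑ i, (W y i - W (g • y0) i) = ∑ i ∈ A, (W y i - W (g • y0) i) := by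
      symm
      apply Finset.sum_subset (Finset.subset_univ _)
      intro i _ hi
      rw [hA2 i hi, sub_self]
    rw [h2, hAeq, Finset.sum_pair hce, ht y c hc1, hWg c hc2, ht y e he1, hWg e he2] at h1
    apply hne
    linarith
  refine ⟨j, i1, ?_, ?_⟩
  · intro g y
    by_contra hne
    have h1 := hWeq g y (i1 y)
    rw [ht (g • y) _ (fun h => hne h.symm), hWi1, htt, htt y] at h1
    have h2 : (n : ℚ) * t y0 = 0 := by linarith
    rcases mul_eq_zero.1 h2 with h | h
    · exact hnQ.ne' h
    · exact ht0 h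
  · intro q y y' hr
    by_contra hne
    set S : Finset (Fin n) := Finset.univ.filter (fun i => eqv q (i1 y) i) with hS
    have h1 := hw.c2 q j y y' hr d0 S (by
      intro i i' hi hii'
      rw [hS, Finset.mem_filter] at hi ⊢
      exact ⟨Finset.mem_univ _, htrans q _ _ _ hi.2 hii'⟩)
    have hmem : i1 y ∈ S := Finset.mem_filter.2 ⟨Finset.mem_univ _, hrefl q _⟩
    have hnmem : i1 y' ∉ S := fun h => hne (Finset.mem_filter.1 h).2
    have h2 : ∑ i ∈ S, W y' i = S.card * t y0 := by
      rw [Finset.sum_congr rfl (fun i hi => ht y' i (fun h => hnmem (h ▸ hi))), Finset.sum_const,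
        nsmul_eq_mul, htt]
    have h3 : ∑ i ∈ S, W y i = - ((n : ℚ) - 1) * t y0 + ((S.card : ℚ) - 1) * t y0 := by
      rw [← Finset.add_sum_erase _ _ hmem,
        Finset.sum_congr rfl (fun c hc => ht y c (Finset.ne_of_mem_erase hc)), Finset.sum_const,
        Finset.card_erase_of_mem hmem, nsmul_eq_mul,
        Nat.cast_sub (Finset.card_pos.2 ⟨_, hmem⟩), hWi1, htt]
      push_cast
      ring
    have h4 : ∑ i ∈ S, W y i = ∑ i ∈ S, W y' i := h1
    rw [h2, h3] at h4
    have h5 : (n : ℚ) * t y0 = 0 := by linarith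
    rcases mul_eq_zero.1 h5 with h | h
    · exact hnQ.ne' h
    · exact ht0 h

end

end Pool.Agent.Helper69.Lin
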