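import Pool.Agent.Helper51.LinDefs
import Pool.Agent.Helper69.Lin.Core

/-!
Module B1 of MP_8eda11_ag.
-/

set_option autoImplicit false

namespace Pool.Agent.Helper69.Lin

open Polynomial Pool.Agent.Helper51.Lin Function Finset

/-- the equation of a node after substitution -/
noncomputable abbrev nodePoly {k : ℕ} (Φ : (MvPolynomial (Fin k) ℂ)[X]) {S : Type} [CommRing S]
    [Algebra ℂ S] (f : Fin k → S) : S[X] :=
  Φ.map (MvPolynomial.aeval f : MvPolynomial (Fin k) ℂ →ₐ[ℂ] S).toRingHom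

theorem nodePoly_map {k : ℕ} (Φ : (MvPolynomial (Fin k) ℂ)[X]) {S T : Type} [CommRing S]
    [Algebra ℂ S] [CommRing T] [Algebra ℂ T] (φ : S →ₐ[ℂ] T) (f : Fin k → S) :
    (nodePoly Φ f).map φ.toRingHom = nodePoly Φ (fun j => φ (f j)) := by
  unfold nodePoly
  rw [Polynomial.map_map]
  congr 1
  apply MvPolynomial.ringHom_ext
  · intro r
    simp
  · intro i
    simp

section roots

variable {B : Type} [CommRing B] [IsDomain B]

theorem roots_map_of_split (hsplit : ∀ p : B[X], p.Monic → ∃ s : Multiset B,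
      p = (s.map (fun a => X - C a)).prod) {T : Type} [CommRing T] [IsDomain T] (φ : B →+* T)
    (p : B[X]) (hp : p.Monic) : (p.map φ).roots = p.roots.map φ := by
  obtain ⟨s, hs⟩ := hsplit p hp
  have h1 : p.roots = s := by rw [hs, roots_multiset_prod_X_sub_C]
  have h2 : p.map φ = ((s.map φ).map (fun a => X - C a)).prod := by
    rw [hs, Polynomial.map_multiset_prod, Multiset.map_map, Multiset.map_map]
    congr 1
    apply Multiset.map_congr rfl
    intro a _
    simp
  rw [h2, roots_multiset_prod_X_sub_C, h1]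

theorem card_roots_of_split (hsplit : ∀ p : B[X], p.Monic → ∃ s : Multiset B,
      p = (s.map (fun a => X - C a)).prod) 
    (p : B[X]) (hp : p.Monic) : Multiset.card p.roots = p.natDegree := by
  obtain ⟨s, hs⟩ := hsplit p hp
  have h1 : p.roots = s := by rw [hs, roots_multiset_prod_X_sub_C]
  rw [h1, hs, natDegree_multiset_prod_X_sub_C_eq_card]

end roots

section vals

variable {n : ℕ} {B : Type} [CommRing B] [IsDomain B] [Algebra ℂ B]

theorem vals_finite (z : Fin n → B) (t : CTree n) : (t.vals z).Finite := by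
  induction t with
  | coord i => exact Set.finite_singleton _
  | node k Φ hΦ hd h D ih =>
    have h1 : (CTree.node k Φ hΦ hd h D).vals z ⊆
        ⋃ f ∈ Set.pi Set.univ (fun j => (D j).vals z), {w | (nodePoly Φ f).IsRoot w} := by
      rintro w ⟨f, hf, hw⟩
      rw [Set.mem_iUnion₂]
      exact ⟨f, fun j _ => hf j, hw⟩
    refine Set.Finite.subset ?_ h1
    apply Set.Finite.biUnion (Set.Finite.pi (fun j => ih j))
    intro f _
    exact Polynomial.finite_setOfPred_isRoot (hΦ.map _).ne_zero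

theorem vals_nonempty (hsplit : ∀ p : B[X], p.Monic → ∃ s : Multiset B,
      p = (s.map (fun a => X - C a)).prod) (z : Fin n → B) (t : CTree n) :
    (t.vals z).Nonempty := by
  induction t with
  | coord i => exact Set.singleton_nonempty _
  | node k Φ hΦ hd h D ih =>
    choose f hf using ih
    have h1 := card_roots_of_split hsplit (nodePoly Φ f) (hΦ.map _)
    rw [hΦ.natDegree_map] at h1
    rw [← h1, Multiset.card_pos_iff_exists_mem] at hd
    obtain ⟨w, hw⟩ := hd
    exact ⟨w, f, hf, (Polynomial.mem_roots'.1 hw).2⟩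

omit [IsDomain B] in
theorem vals_stable {G : Type} [Group G] [MulSemiringAction G B] [SMulCommClass G ℂ B]
    (z : Fin n → B) (hz : ∀ (g : G) i, g • z i = z i) (t : CTree n) (g : G) :
    ∀ f ∈ t.vals z, g • f ∈ t.vals z := by
  induction t with
  | coord i =>
    intro f hf
    have hf' : f = z i := hf
    subst hf'
    rw [hz]
    rfl
  | node k Φ hΦ hd h D ih =>
    rintro w ⟨f, hf, hw⟩
    refine ⟨fun j => g • f j, fun j => ih j _ (hf j), ?_⟩
    have h1 := hw.map (f := (MulSemiringAction.toAlgHom ℂ B g).toRingHom)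
    rw [nodePoly_map] at h1
    exact h1

end vals

theorem sum_countP {α ι : Type*} [DecidableEq ι] (f : α → ι) (S : Finset ι) (s : Multiset α) :
    ∑ i ∈ S, s.countP (fun a => f a = i) = s.countP (fun a => f a ∈ S) := by
  induction s using Multiset.induction_on with
  | empty => simp
  | cons a s ih =>
    simp only [Multiset.countP_cons, Finset.sum_add_distrib, ih, Finset.sum_ite_eq]


/-- the action on a stable subset -/
@[reducible] def stabAct {B G : Type} [Group G] [MulAction G B] (S : Set B)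
    (hS : ∀ (g : G), ∀ y ∈ S, g • y ∈ S) : MulAction G S where
  smul g y := ⟨g • y.1, hS g y.1 y.2⟩
  one_smul y := Subtype.ext (one_smul G y.1)
  mul_smul g h y := Subtype.ext (mul_smul g h y.1)

section main

variable {n : ℕ} {B : Type} [CommRing B] [IsDomain B] [Algebra ℂ B]
  {G : Type} [Group G] [MulSemiringAction G B] [SMulCommClass G ℂ B]

/-- the induction hypothesis -/
def IH (ε : B →ₐ[ℂ] ℂ) (lam : Fin n → B) (ρ : G →* Equiv.Perm (Fin n)) (z : Fin n → B)
    (s : CTree n) (c : ℂ) : Prop :=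
  (∃ f ∈ s.vals z, ε f = c) ∧ ∃ i0 : B → Fin n,
    (∀ (g : G), ∀ f ∈ s.vals z, ε f = c → i0 (g • f) = ρ g (i0 f)) ∧
    (∀ Q : Ideal B, Q.IsPrime → Q ≤ RingHom.ker ε → ∀ f ∈ s.vals z, ε f = c →
      ∀ f' ∈ s.vals z, ε f' = c → f - f' ∈ Q → lam (i0 f) - lam (i0 f') ∈ Q)

/-- the relevant roots -/
noncomputable def RR {k : ℕ} (ε : B →ₐ[ℂ] ℂ) (Φ : (MvPolynomial (Fin k) ℂ)[X]) (c : ℂ)
    (f : Fin k → B) : Multiset B := by
  classical
  exact (nodePoly Φ f).roots.filter (fun w => ε w = c)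

theorem mem_RR {k : ℕ} (ε : B →ₐ[ℂ] ℂ) (Φ : (MvPolynomial (Fin k) ℂ)[X]) (c : ℂ)
    (f : Fin k → B) (w : B) : w ∈ RR ε Φ c f ↔ w ∈ (nodePoly Φ f).roots ∧ ε w = c := by
  classical
  unfold RR
  rw [Multiset.mem_filter]

theorem card_RR (hsplit : ∀ p : B[X], p.Monic → ∃ s : Multiset B,
      p = (s.map (fun a => X - C a)).prod) {k : ℕ} (ε : B →ₐ[ℂ] ℂ)
    (Φ : (MvPolynomial (Fin k) ℂ)[X]) (hΦ : Φ.Monic) (c : ℂ) (f : Fin k → B) :
    Multiset.card (RR ε Φ c f) = (nodePoly Φ (fun j => ε (f j))).roots.count c := by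
  classical
  rw [← nodePoly_map Φ ε f, roots_map_of_split hsplit _ _ (hΦ.map _), Multiset.count_map]
  unfold RR
  congr 1
  apply Multiset.filter_congr
  intro w _
  exact ⟨fun h => h.symm, fun h => h.symm⟩

/-- reduction of the relevant roots modulo a prime below the kernel of the augmentation -/
theorem RR_map (hsplit : ∀ p : B[X], p.Monic → ∃ s : Multiset B,
      p = (s.map (fun a => X - C a)).prod) {k : ℕ} (ε : B →ₐ[ℂ] ℂ)
    (Φ : (MvPolynomial (Fin k) ℂ)[X]) (hΦ : Φ.Monic) (c : ℂ) {f f' : Fin k → B}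
    (Q : Ideal B) (hQ : Q.IsPrime) (hQε : Q ≤ RingHom.ker ε) (hff : ∀ j, f j - f' j ∈ Q) :
    (RR ε Φ c f).map (Ideal.Quotient.mk Q) = (RR ε Φ c f').map (Ideal.Quotient.mk Q) := by
  classical
  set εb : B ⧸ Q →+* ℂ := Ideal.Quotient.lift Q ε.toRingHom (fun a ha => hQε ha) with hεb
  have h1 : ∀ f : Fin k → B, (RR ε Φ c f).map (Ideal.Quotient.mk Q) =
      ((nodePoly Φ f).map (Ideal.Quotient.mk Q)).roots.filter (fun w => εb w = c) := by
    intro f
    rw [roots_map_of_split hsplit _ _ (hΦ.map _), Multiset.filter_map]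
    unfold RR
    congr 1
  rw [h1, h1]
  have h2 : (nodePoly Φ f).map (Ideal.Quotient.mk Q) = (nodePoly Φ f').map (Ideal.Quotient.mk Q) := by
    have e1 := nodePoly_map Φ (Ideal.Quotient.mkₐ ℂ Q) f
    have e2 := nodePoly_map Φ (Ideal.Quotient.mkₐ ℂ Q) f'
    have e3 : (fun j => (Ideal.Quotient.mkₐ ℂ Q) (f j)) = (fun j => (Ideal.Quotient.mkₐ ℂ Q) (f' j)) := by
      funext j
      exact (Ideal.Quotient.eq.2 (hff j))
    rw [e3, ← e2] at e1
    exact e1
  rw [h2]

theorem RR_smul (hsplit : ∀ p : B[X], p.Monic → ∃ s : Multiset B,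
      p = (s.map (fun a => X - C a)).prod) {k : ℕ} (ε : B →ₐ[ℂ] ℂ)
    (hε : ∀ (g : G) (b : B), ε (g • b) = ε b)
    (Φ : (MvPolynomial (Fin k) ℂ)[X]) (hΦ : Φ.Monic) (c : ℂ) (f : Fin k → B) (g : G) :
    RR ε Φ c (fun j => g • f j) = (RR ε Φ c f).map (fun w => g • w) := by
  classical
  have h1 := nodePoly_map Φ (MulSemiringAction.toAlgHom ℂ B g) f
  have h2 : RR ε Φ c (fun j => g • f j) =
      (nodePoly Φ (fun j => (MulSemiringAction.toAlgHom ℂ B g) (f j))).roots.filter
        (fun w => ε w = c) := rfl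
  rw [h2, ← h1, roots_map_of_split hsplit _ _ (hΦ.map _), Multiset.filter_map]
  unfold RR
  have h3 : (nodePoly Φ f).roots.filter ((fun w => ε w = c) ∘
      (MulSemiringAction.toAlgHom ℂ B g).toRingHom) = (nodePoly Φ f).roots.filter
        (fun w => ε w = c) := by
    apply Multiset.filter_congr
    intro w _
    have : ε ((MulSemiringAction.toAlgHom ℂ B g).toRingHom w) = ε w := hε g w
    simp only [Function.comp, this]
  rw [h3]
  rfl

theorem node_step (hn : 4 ≤ n)
    (hsplit : ∀ p : B[X], p.Monic → ∃ s : Multiset B, p = (s.map (fun a => X - C a)).prod)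
    (ε : B →ₐ[ℂ] ℂ) (hε : ∀ (g : G) (b : B), ε (g • b) = ε b)
    (lam : Fin n → B)
    (ρ : G →* Equiv.Perm (Fin n)) (hρ : Function.Surjective ρ)
    (z : Fin n → B) (hz : ∀ (g : G) i, g • z i = z i)
    (K1 : ∀ k, k + 2 ≤ n → ∀ d : Fin k → B, ∃ P : Ideal B, P.IsPrime ∧ P ≤ RingHom.ker ε ∧
      (∀ j, d j - algebraMap ℂ B (ε (d j)) ∈ P) ∧ ∃ i i', lam i - lam i' ∉ P)
    (K2 : ∀ y y' : B, y ≠ y' → ε y = ε y' → ∃ Q : Ideal B, Q.IsPrime ∧ Q ≤ RingHom.ker ε ∧
      y - y' ∈ Q ∧ ∃ a b : Fin n, ∀ i i', i ≠ i' → lam i - lam i' ∈ Q →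
        (i = a ∧ i' = b) ∨ (i = b ∧ i' = a))
    (k : ℕ) (Φ : (MvPolynomial (Fin k) ℂ)[X]) (hΦ : Φ.Monic) (hd : 0 < Φ.natDegree)
    (h : k + 2 ≤ n ∨ Φ.natDegree = 1) (D : Fin k → CTree n)
    (ih : ∀ j c, ¬ IH ε lam ρ z (D j) c) (c : ℂ) :
    ¬ IH ε lam ρ z (CTree.node k Φ hΦ hd h D) c := by
  classical
  rintro ⟨⟨f0, ⟨d0, hd0, hroot⟩, hf0c⟩, i0, hi0, hcomp⟩
  have hnQ : (0 : ℚ) < n := by exact_mod_cast (by omega : 0 < n)
  set X : Fin k → Set B := fun j => {y : B | y ∈ (D j).vals z ∧ ε y = ε (d0 j)} with hX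
  have hXst : ∀ j (g : G), ∀ y ∈ X j, g • y ∈ X j := fun j g y hy =>
    ⟨vals_stable z hz (D j) g y hy.1, by rw [hε]; exact hy.2⟩
  have : ∀ j, Fintype (X j) := fun j =>
    ((vals_finite z (D j)).subset (fun y hy => hy.1)).fintype
  let _ : ∀ j, MulAction G (X j) := fun j => stabAct (X j) (hXst j)
  have hsm : ∀ j (g : G) (y : X j), ((g • y : X j) : B) = g • (y : B) := fun _ _ _ => rfl
  set val : (∀ j, X j) → Fin k → B := fun d j => (d j : B) with hval
  set R : (∀ j, X j) → Multiset B := fun d => RR ε Φ c (val d) with hR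
  have hRmem : ∀ d w, w ∈ R d → w ∈ (CTree.node k Φ hΦ hd h D).vals z ∧ ε w = c := by
    intro d w hw
    rw [hR, mem_RR] at hw
    exact ⟨⟨val d, fun j => (d j).2.1, (Polynomial.mem_roots'.1 hw.1).2⟩, hw.2⟩
  set M : ℕ := (nodePoly Φ (fun j => ε (d0 j))).roots.count c with hM
  have hcard : ∀ d, Multiset.card (R d) = M := by
    intro d
    rw [hR, card_RR hsplit ε Φ hΦ c (val d), hM]
    congr 3
    funext j
    exact (d j).2.2
  set m : (∀ j, X j) → Fin n → ℕ := fun d i => (R d).countP (fun w => i0 w = i) with hm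
  have hmS : ∀ d (S : Finset (Fin n)), ∑ i ∈ S, m d i = (R d).countP (fun w => i0 w ∈ S) :=
    fun d S => sum_countP i0 S (R d)
  have hmtot : ∀ d, ∑ i, m d i = M := by
    intro d
    rw [hmS, ← hcard d, Multiset.countP_eq_card]
    intro w _
    exact Finset.mem_univ _
  set u : (∀ j, X j) → Fin n → ℚ := fun d i => (m d i : ℚ) - (M : ℚ) / n with hu
  set 𝒬 := {Q : Ideal B // Q.IsPrime ∧ Q ≤ RingHom.ker ε} with h𝒬
  set eqv : 𝒬 → Fin n → Fin n → Prop := fun q i i' => lam i - lam i' ∈ q.1 with heqv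
  set rel : 𝒬 → ∀ j, X j → X j → Prop := fun q j y y' => (y : B) - (y' : B) ∈ q.1 with hrel
  -- the base point
  set dd : ∀ j, X j := fun j => ⟨d0 j, hd0 j, rfl⟩ with hdd
  have hf0R : f0 ∈ R dd := by
    rw [hR, mem_RR]
    exact ⟨Polynomial.mem_roots'.2 ⟨(hΦ.map _).ne_zero, hroot⟩, hf0c⟩
  have hM0 : 0 < M := by
    rw [← hcard dd, Multiset.card_pos_iff_exists_mem]
    exact ⟨f0, hf0R⟩
  have hPk : Pk ρ eqv rel u := by
    refine ⟨⟨dd, ?_⟩, ?_, ?_, ?_⟩
    · intro h0
      have hmi : ∀ i, m dd i * n = M := by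
        intro i
        have h1 := congrFun h0 i
        simp only [hu, Pi.zero_apply] at h1
        have h2 : (m dd i : ℚ) * n = M := by
          field_simp at h1
          linarith
        exact_mod_cast h2
      rcases h with hk | hdeg
      · obtain ⟨P, hP, hPε, hPd, i1, i2, hi12⟩ := K1 k hk d0
        have := hP
        have hall : ∀ w ∈ R dd, w - algebraMap ℂ B c ∈ P := by
          intro w hw
          set εb : B ⧸ P →+* ℂ := Ideal.Quotient.lift P ε.toRingHom (fun a ha => hPε ha) with hεb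
          have hw1 := (mem_RR ε Φ c (val dd) w).1 hw
          have e1 : (nodePoly Φ (val dd)).map (Ideal.Quotient.mk P) =
              (nodePoly Φ (fun j => ε (d0 j))).map (algebraMap ℂ (B ⧸ P)) := by
            have a1 := nodePoly_map Φ (Ideal.Quotient.mkₐ ℂ P) (val dd)
            have a2 := nodePoly_map Φ (Algebra.ofId ℂ (B ⧸ P)) (fun j => ε (d0 j))
            have a3 : (fun j => (Ideal.Quotient.mkₐ ℂ P) (val dd j)) =
                (fun j => (Algebra.ofId ℂ (B ⧸ P)) (ε (d0 j))) := by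
              funext j
              exact Ideal.Quotient.eq.2 (hPd j)
            rw [a3, ← a2] at a1
            exact a1
          have e2 : Ideal.Quotient.mk P w ∈
              ((nodePoly Φ (fun j => ε (d0 j))).map (algebraMap ℂ (B ⧸ P))).roots := by
            rw [← e1, roots_map_of_split hsplit _ _ (hΦ.map _)]
            exact Multiset.mem_map_of_mem _ hw1.1
          have hsplitC : ∀ p : ℂ[X], p.Monic → ∃ s : Multiset ℂ,
              p = (s.map (fun a => Polynomial.X - C a)).prod := by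
            intro p hp
            refine ⟨p.roots, ?_⟩
            exact (IsAlgClosed.splits p).eq_prod_roots_of_monic hp
          rw [roots_map_of_split hsplitC _ _ (hΦ.map _), Multiset.mem_map] at e2
          obtain ⟨a, _, ha⟩ := e2
          have e3 : a = c := by
            have b1 := congrArg εb ha
            have b2 : εb (algebraMap ℂ (B ⧸ P) a) = a := by
              exact ε.commutes a
            have b3 : εb (Ideal.Quotient.mk P w) = ε w := rfl
            rw [b2, b3, hw1.2] at b1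
            exact b1
          rw [e3] at ha
          exact Ideal.Quotient.eq.1 ha.symm
        -- all i0 w are congruent
        have hcl : ∀ w ∈ R dd, lam (i0 w) - lam (i0 f0) ∈ P := by
          intro w hw
          apply hcomp P hP hPε w (hRmem dd w hw).1 (hRmem dd w hw).2 f0 (hRmem dd f0 hf0R).1
            (hRmem dd f0 hf0R).2
          have := P.sub_mem (hall w hw) (hall f0 hf0R)
          simpa using this
        have hz' : ∀ i, lam i - lam (i0 f0) ∉ P → m dd i = 0 := by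
          intro i hi
          rw [hm]
          simp only [Multiset.countP_eq_zero]
          intro w hw hwi
          apply hi
          rw [← hwi]
          exact hcl w hw
        have : ∃ i, lam i - lam (i0 f0) ∉ P := by
          by_contra hno
          push Not at hno
          apply hi12
          have := P.sub_mem (hno i1) (hno i2)
          simpa using this
        obtain ⟨i, hi⟩ := this
        have h3 := hmi i
        rw [hz' i hi, zero_mul] at h3
        omega
      · have h1 : M ≤ 1 := by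
          rw [hM]
          refine (Multiset.count_le_card _ _).trans ((Polynomial.card_roots' _).trans ?_)
          rw [hΦ.natDegree_map, hdeg]
        have h2 : M = 1 := by omega
        have h3 := hmi ⟨0, by omega⟩
        rw [h2] at h3
        have h4 := Nat.eq_one_of_mul_eq_one_left h3
        omega
    · intro d
      simp only [hu, Finset.sum_sub_distrib, Finset.sum_const, Finset.card_univ, Fintype.card_fin,
        nsmul_eq_mul]
      have := hmtot d
      have h2 : ∑ i, (m d i : ℚ) = M := by exact_mod_cast this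
      rw [h2]
      field_simp
      ring
    · intro g d i
      simp only [hu]
      congr 2
      have h1 : R (fun j => g • d j) = (R d).map (fun w => g • w) := by
        exact RR_smul hsplit ε hε Φ hΦ c (val d) g
      simp only [hm]
      rw [h1, Multiset.countP_map, Multiset.countP_eq_card_filter]
      congr 1
      apply Multiset.filter_congr
      intro w hw
      rw [hi0 g w (hRmem d w hw).1 (hRmem d w hw).2]
      exact (ρ g).injective.eq_iff
    · intro q j y y' hr d S hS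
      simp only [hu, Finset.sum_sub_distrib]
      congr 1
      have h1 : ∀ d, ∑ i ∈ S, (m d i : ℚ) = ((R d).countP (fun w => i0 w ∈ S) : ℕ) := by
        intro d; rw [← hmS]; push_cast; rfl
      rw [h1, h1]
      congr 1
      set T : B ⧸ q.1 → Prop := fun b => ∃ f, f ∈ (CTree.node k Φ hΦ hd h D).vals z ∧ ε f = c ∧
        Ideal.Quotient.mk q.1 f = b ∧ i0 f ∈ S with hT
      have hTiff : ∀ w, w ∈ (CTree.node k Φ hΦ hd h D).vals z → ε w = c →
          (T (Ideal.Quotient.mk q.1 w) ↔ i0 w ∈ S) := by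
        intro w hw1 hw2
        constructor
        · rintro ⟨f, hf1, hf2, hf3, hf4⟩
          refine hS _ _ hf4 ?_
          exact hcomp q.1 q.2.1 q.2.2 f hf1 hf2 w hw1 hw2 (Ideal.Quotient.eq.1 hf3)
        · intro h
          exact ⟨w, hw1, hw2, rfl, h⟩
      have h2 : ∀ d, (R d).countP (fun w => i0 w ∈ S) =
          ((R d).map (Ideal.Quotient.mk q.1)).countP T := by
        intro d
        rw [Multiset.countP_map, Multiset.countP_eq_card_filter]
        congr 1
        apply Multiset.filter_congr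
        intro w hw
        exact (hTiff w (hRmem d w hw).1 (hRmem d w hw).2).symm
      rw [h2, h2]
      congr 1
      apply RR_map hsplit ε Φ hΦ c q.1 q.2.1 q.2.2
      intro l
      by_cases hl : l = j
      · subst hl
        simp only [hval, update_self]
        exact hr
      · simp only [hval, update_of_ne hl, sub_self]
        exact q.1.zero_mem
  obtain ⟨j, i1, hi1, hi2⟩ := core hn hρ (eqv := eqv) (rel := rel)
    (fun q i => by simp only [heqv, sub_self]; exact q.1.zero_mem)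
    (fun q i i' i'' h1 h2 => by
      have := q.1.add_mem h1 h2
      simpa [heqv] using this)
    (fun j y y' hne => by
      obtain ⟨Q, hQ1, hQ2, hQ3, hQ4⟩ := K2 y y' (fun h => hne (Subtype.ext h))
        (y.2.2.trans y'.2.2.symm)
      exact ⟨⟨Q, hQ1, hQ2⟩, hQ3, hQ4⟩) hPk
  apply ih j (ε (d0 j))
  refine ⟨⟨d0 j, hd0 j, rfl⟩,
    fun b => if hb : b ∈ X j then i1 ⟨b, hb⟩ else ⟨0, by omega⟩, ?_, ?_⟩
  · intro g f hf1 hf2
    have hf : f ∈ X j := ⟨hf1, hf2⟩
    have hgf : g • f ∈ X j := hXst j g f hf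
    simp only [dif_pos hf, dif_pos hgf]
    exact hi1 g ⟨f, hf⟩
  · intro Q hQ1 hQ2 f hf1 hf2 f' hf1' hf2' hff
    have hf : f ∈ X j := ⟨hf1, hf2⟩
    have hf' : f' ∈ X j := ⟨hf1', hf2'⟩
    simp only [dif_pos hf, dif_pos hf']
    exact hi2 ⟨Q, hQ1, hQ2⟩ ⟨f, hf⟩ ⟨f', hf'⟩ hff

theorem not_IH (hn : 4 ≤ n)
    (hsplit : ∀ p : B[X], p.Monic → ∃ s : Multiset B, p = (s.map (fun a => X - C a)).prod)
    (ε : B →ₐ[ℂ] ℂ) (hε : ∀ (g : G) (b : B), ε (g • b) = ε b)
    (lam : Fin n → B)
    (ρ : G →* Equiv.Perm (Fin n)) (hρ : Function.Surjective ρ)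
    (z : Fin n → B) (hz : ∀ (g : G) i, g • z i = z i)
    (K1 : ∀ k, k + 2 ≤ n → ∀ d : Fin k → B, ∃ P : Ideal B, P.IsPrime ∧ P ≤ RingHom.ker ε ∧
      (∀ j, d j - algebraMap ℂ B (ε (d j)) ∈ P) ∧ ∃ i i', lam i - lam i' ∉ P)
    (K2 : ∀ y y' : B, y ≠ y' → ε y = ε y' → ∃ Q : Ideal B, Q.IsPrime ∧ Q ≤ RingHom.ker ε ∧
      y - y' ∈ Q ∧ ∃ a b : Fin n, ∀ i i', i ≠ i' → lam i - lam i' ∈ Q →
        (i = a ∧ i' = b) ∨ (i = b ∧ i' = a)) (t : CTree n) :
    ∀ c, ¬ IH ε lam ρ z t c := by
  induction t with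
  | coord i =>
    rintro c ⟨⟨f, hf, hfc⟩, i0, hi0, -⟩
    have hf' : f = z i := hf
    subst hf'
    have h1 : ∀ g : G, ρ g (i0 (z i)) = i0 (z i) := by
      intro g
      rw [← hi0 g (z i) hf hfc, hz]
    obtain ⟨b, hb⟩ : ∃ b : Fin n, b ≠ i0 (z i) := by
      by_cases h : i0 (z i) = ⟨0, by omega⟩
      · exact ⟨⟨1, by omega⟩, by rw [h]; simp⟩
      · exact ⟨⟨0, by omega⟩, fun h' => h h'.symm⟩
    obtain ⟨g, hg⟩ := hρ (Equiv.swap (i0 (z i)) b)
    have h2 := h1 g
    rw [hg, Equiv.swap_apply_left] at h2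
    exact hb h2
  | node k Φ hΦ hd h D ih =>
    intro c
    exact node_step hn hsplit ε hε lam ρ hρ z hz K1 K2 k Φ hΦ hd h D ih c

/-- Module B1. -/
theorem CTree.not_vals_subset_range {n : ℕ} (hn : 4 ≤ n)
    {B : Type} [CommRing B] [IsDomain B] [Algebra ℂ B]
    (hsplit : ∀ p : B[X], p.Monic → ∃ s : Multiset B, p = (s.map (fun a => X - C a)).prod)
    {G : Type} [Group G] [MulSemiringAction G B] [SMulCommClass G ℂ B]
    (ε : B →ₐ[ℂ] ℂ) (hε : ∀ (g : G) (b : B), ε (g • b) = ε b)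
    (lam : Fin n → B) (hinj : Function.Injective lam)
    (ρ : G →* Equiv.Perm (Fin n)) (hρ : Function.Surjective ρ)
    (hlam : ∀ g i, g • lam i = lam (ρ g i)) (hlam0 : ∀ i, ε (lam i) = 0)
    (z : Fin n → B) (hz : ∀ (g : G) i, g • z i = z i)
    (K1 : ∀ k, k + 2 ≤ n → ∀ d : Fin k → B, ∃ P : Ideal B, P.IsPrime ∧ P ≤ RingHom.ker ε ∧
      (∀ j, d j - algebraMap ℂ B (ε (d j)) ∈ P) ∧ ∃ i i', lam i - lam i' ∉ P)
    (K2 : ∀ y y' : B, y ≠ y' → ε y = ε y' → ∃ Q : Ideal B, Q.IsPrime ∧ Q ≤ RingHom.ker ε ∧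
      y - y' ∈ Q ∧ ∃ a b : Fin n, ∀ i i', i ≠ i' → lam i - lam i' ∈ Q →
        (i = a ∧ i' = b) ∨ (i = b ∧ i' = a))
    (t : CTree n) : ¬ (t.vals z ⊆ Set.range lam) := by
  intro hsub
  have : Nonempty (Fin n) := ⟨⟨0, by omega⟩⟩
  apply not_IH hn hsplit ε hε lam ρ hρ z hz K1 K2 t 0
  obtain ⟨f, hf⟩ := vals_nonempty hsplit z t
  have hinv : ∀ i, Function.invFun lam (lam i) = i := fun i =>
    Function.leftInverse_invFun hinj i
  refine ⟨⟨f, hf, ?_⟩, Function.invFun lam, ?_, ?_⟩
  · obtain ⟨i, rfl⟩ := hsub hf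
    exact hlam0 i
  · intro g f hf _
    obtain ⟨i, rfl⟩ := hsub hf
    rw [hlam, hinv, hinv]
  · intro Q _ _ f hf _ f' hf' _ hff
    obtain ⟨i, rfl⟩ := hsub hf
    obtain ⟨i', rfl⟩ := hsub hf'
    rw [hinv, hinv]
    exact hff

end main

end Pool.Agent.Helper69.Lin
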