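import Pool.Agent.Helper51.LinLineDefs
import Pool.Agent.Helper69.Lin.Line

/-!
Module KAPPA of MP_8eda11_ag: degree in the first variable, behaviour of the roots at infinity.
-/

set_option autoImplicit false

namespace Pool.Agent.Helper69.LinKappa

open MeasureTheory Filter Topology Set Metric Polynomial Pool.Agent.Helper51.Lin
open Pool.Agent.Helper69.LinLine

variable {m : ℕ} {R : (MvPolynomial (Fin (m + 1)) ℂ)[X]}

theorem cfg_add (b : Fin m → ℂ) (x : ℂ) : cfg 0 b + x • cfg 1 0 = cfg x b := by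
  funext i
  refine Fin.cases ?_ ?_ i
  · simp [cfg]
  · intro j; simp [cfg]

theorem cfg_inj {b : Fin m → ℂ} (hb : Function.Injective b) {x : ℂ} (hx : x ∉ Set.range b) :
    Function.Injective (cfg x b) := by
  intro i j
  refine Fin.cases ?_ ?_ i
  · refine Fin.cases ?_ ?_ j
    · intro _; rfl
    · intro j h
      exact absurd ⟨j, h.symm⟩ hx
  · intro i
    refine Fin.cases ?_ ?_ j
    · intro h
      exact absurd ⟨i, h⟩ hx
    · intro j h
      have h1 : b i = b j := h
      rw [hb h1]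

lemma eval_xPoly (R : (MvPolynomial (Fin (m + 1)) ℂ)[X]) (b : Fin m → ℂ) (T x : ℂ) :
    (xPoly R b T).eval x = Rf R (cfg x b, T) := by
  unfold xPoly
  rw [eval_linePoly, cfg_add]
  simp

theorem cfg_continuous (x : ℂ) : Continuous (fun b : Fin m → ℂ => cfg x b) := by
  apply continuous_pi
  intro i
  refine Fin.cases ?_ ?_ i
  · exact continuous_const
  · intro j
    exact continuous_apply j

theorem continuous_coeff (R : (MvPolynomial (Fin (m + 1)) ℂ)[X]) (k : ℕ) :
    Continuous (fun q : (Fin m → ℂ) × ℂ => (xPoly R q.1 q.2).coeff k) := by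
  obtain ⟨K, hK⟩ := exists_natDegree_linePoly_le R
  set s := Finset.range (K + 1) with hs
  set v : ℕ → ℂ := fun i => (i : ℂ) with hv
  have hinj : Set.InjOn v s := fun i _ j _ h => Nat.cast_injective h
  have h1 : ∀ q : (Fin m → ℂ) × ℂ, (xPoly R q.1 q.2).coeff k =
      ∑ i ∈ s, Rf R (cfg (v i) q.1, q.2) * (Lagrange.basis s v i).coeff k := by
    intro q
    have h2 : (xPoly R q.1 q.2).degree < s.card := by
      refine lt_of_le_of_lt Polynomial.degree_le_natDegree ?_
      rw [hs, Finset.card_range]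
      exact_mod_cast Nat.lt_succ_of_le (hK _ _ _ _ _)
    have h3 := Lagrange.eq_interpolate hinj h2
    conv_lhs => rw [h3]
    rw [Lagrange.interpolate_apply, finsetSum_coeff]
    apply Finset.sum_congr rfl
    intro i _
    rw [coeff_C_mul, eval_xPoly]
  have h2 : (fun q : (Fin m → ℂ) × ℂ => (xPoly R q.1 q.2).coeff k) =
      fun q => ∑ i ∈ s, Rf R (cfg (v i) q.1, q.2) * (Lagrange.basis s v i).coeff k := funext h1
  rw [h2]
  apply continuous_finsetSum
  intro i _
  apply Continuous.mul _ continuous_const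
  apply (continuous_Rf R).comp
  exact ((cfg_continuous (v i)).comp continuous_fst).prodMk continuous_snd

theorem eventually_injective (b : Fin m → ℂ) :
    ∀ᶠ t : ℂ in 𝓝[≠] 0, Function.Injective (fun i : Fin m => b i + t * (i : ℕ)) := by
  have h1 : ∀ i j : Fin m, i ≠ j → ∀ᶠ t : ℂ in 𝓝[≠] 0,
      b i + t * (i : ℕ) ≠ b j + t * (j : ℕ) := by
    intro i j hij
    have hne : ((i : ℕ) : ℂ) - ((j : ℕ) : ℂ) ≠ 0 := by
      rw [sub_ne_zero]
      intro h
      apply hij
      exact Fin.ext (by exact_mod_cast h)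
    have h2 : ∀ᶠ t : ℂ in 𝓝[≠] 0, t ≠ (b j - b i) / (((i : ℕ) : ℂ) - ((j : ℕ) : ℂ)) := by
      by_cases h0 : (b j - b i) / (((i : ℕ) : ℂ) - ((j : ℕ) : ℂ)) = 0
      · rw [h0]
        exact self_mem_nhdsWithin
      · exact mem_nhdsWithin_of_mem_nhds (isOpen_ne.mem_nhds (Ne.symm h0))
    filter_upwards [h2] with t ht h3
    apply ht
    rw [eq_div_iff hne]
    linear_combination h3
  have h3 : ∀ᶠ t : ℂ in 𝓝[≠] 0, ∀ i j : Fin m, i ≠ j →
      b i + t * (i : ℕ) ≠ b j + t * (j : ℕ) := by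
    rw [eventually_all]
    intro i
    rw [eventually_all]
    intro j
    by_cases h : i = j
    · exact Filter.Eventually.of_forall (fun t h' => absurd h h')
    · filter_upwards [h1 i j h] with t ht _
      exact ht
  filter_upwards [h3] with t ht i j hij
  by_contra hne
  exact ht i j hne hij

lemma exists_kappa (R : (MvPolynomial (Fin (m + 1)) ℂ)[X]) (hR : R.Monic) :
    ∃ κ : ℕ, (∀ b T, (xPoly R b T).natDegree ≤ κ) ∧
      ∃ (b : Fin m → ℂ) (p : ℂ), Function.Injective b ∧ (xPoly R b p).coeff κ ≠ 0 := by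
  classical
  obtain ⟨K, hK⟩ := exists_natDegree_linePoly_le R
  have hKx : ∀ b T, (xPoly R b T).natDegree ≤ K := fun b T => hK _ _ _ _ _
  set S : Set ℕ := {k | ∃ b T, (xPoly R b T).coeff k ≠ 0} with hS
  have hSb : ∀ k ∈ S, k ≤ K := by
    rintro k ⟨b, T, h⟩
    exact (Polynomial.le_natDegree_of_ne_zero h).trans (hKx b T)
  have hSn : S.Nonempty := by
    have h1 : spec R (cfg 0 0) ≠ 0 := (spec_monic hR _).ne_zero
    obtain ⟨T, hT⟩ : ∃ T, (spec R (cfg 0 0)).eval T ≠ 0 := by
      by_contra h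
      push Not at h
      exact h1 (Polynomial.funext (fun T => by rw [h T, eval_zero]))
    have h2 : xPoly R 0 T ≠ 0 := by
      intro h
      apply hT
      have := eval_xPoly R 0 T 0
      rw [h, eval_zero] at this
      exact this.symm
    exact ⟨(xPoly R 0 T).natDegree, 0, T, by
      rw [coeff_natDegree]; exact leadingCoeff_ne_zero.2 h2⟩
  have hbdd : BddAbove S := ⟨K, fun k hk => hSb k hk⟩
  set κ := sSup S with hκ
  have hκS : κ ∈ S := Nat.sSup_mem hSn hbdd
  refine ⟨κ, ?_, ?_⟩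
  · intro b T
    by_cases h : xPoly R b T = 0
    · rw [h, natDegree_zero]; exact Nat.zero_le _
    · apply le_csSup hbdd
      exact ⟨b, T, by rw [coeff_natDegree]; exact leadingCoeff_ne_zero.2 h⟩
  · obtain ⟨b0, T0, h0⟩ := hκS
    have hc := continuous_coeff R κ
    have hc2 : Continuous (fun t : ℂ =>
        (xPoly R (fun i : Fin m => b0 i + t * (i : ℕ)) T0).coeff κ) := by
      have h1 : Continuous (fun t : ℂ => ((fun i : Fin m => b0 i + t * (i : ℕ)), T0)) := by
        fun_prop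
      exact hc.comp h1
    have h1 : ∀ᶠ t : ℂ in 𝓝 0,
        (xPoly R (fun i : Fin m => b0 i + t * (i : ℕ)) T0).coeff κ ≠ 0 := by
      apply hc2.continuousAt.eventually_ne
      simpa using h0
    obtain ⟨t, ht1, ht2⟩ := ((eventually_nhdsWithin_of_eventually_nhds h1).and
      (eventually_injective b0)).exists
    exact ⟨_, T0, ht2, ht1⟩

lemma roots_away (hR : R.Monic) (κ : ℕ) (hκ : ∀ b T, (xPoly R b T).natDegree ≤ κ)
    (b : Fin m → ℂ) (p : ℂ) (hp : (xPoly R b p).coeff κ ≠ 0) :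
    ∃ δ > 0, ∃ X₀ : ℝ, ∀ b' : Fin m → ℂ, ‖b' - b‖ < δ → ∀ x : ℂ, X₀ < ‖x‖ →
      ∀ w ∈ rts R (cfg x b'), δ ≤ ‖w - p‖ := by
  set a : ℕ → (Fin m → ℂ) × ℂ → ℂ := fun i q => (xPoly R q.1 q.2).coeff i with ha
  have hac : ∀ i, Continuous (a i) := fun i => continuous_coeff R i
  set c := ‖a κ (b, p)‖ / 2 with hc
  have hcpos : 0 < c := by
    have : 0 < ‖a κ (b, p)‖ := norm_pos_iff.2 hp
    rw [hc]; linarith
  set C := ∑ i ∈ Finset.range κ, (‖a i (b, p)‖ + 1) with hC
  have hC0 : 0 ≤ C := Finset.sum_nonneg (fun i _ => by positivity)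
  have e1 : ∀ᶠ q in 𝓝 (b, p), c < ‖a κ q‖ := by
    apply (hac κ).norm.continuousAt.eventually_const_lt
    show c < ‖a κ (b, p)‖
    rw [hc]
    linarith
  have e2 : ∀ᶠ q in 𝓝 (b, p), ∀ i ∈ Finset.range κ, ‖a i q‖ ≤ C := by
    rw [Filter.eventually_all_finset]
    intro i hi
    have h1 : ∀ᶠ q in 𝓝 (b, p), ‖a i q‖ < ‖a i (b, p)‖ + 1 := by
      apply (hac i).norm.continuousAt.eventually_lt_const
      linarith
    filter_upwards [h1] with q hq
    refine hq.le.trans ?_
    exact Finset.single_le_sum (f := fun i => ‖a i (b, p)‖ + 1) (fun i _ => by positivity) hi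
  obtain ⟨δ, hδ, hδ2⟩ := Metric.eventually_nhds_iff.1 (e1.and e2)
  refine ⟨δ, hδ, C / c + 1, ?_⟩
  intro b' hb' x hx w hw
  by_contra hlt
  push Not at hlt
  have hdist : dist (b', w) (b, p) < δ := by
    rw [Prod.dist_eq, dist_eq_norm, dist_eq_norm]
    exact max_lt hb' hlt
  obtain ⟨f1, f2⟩ := hδ2 hdist
  set P := xPoly R b' w with hP
  have hPκ : P.coeff κ ≠ 0 := by
    intro h
    have : a κ (b', w) = 0 := h
    rw [this, norm_zero] at f1
    linarith
  have hPd : P.natDegree = κ :=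
    le_antisymm (hκ _ _) (Polynomial.le_natDegree_of_ne_zero hPκ)
  have hP0 : P ≠ 0 := by
    intro h; rw [h, coeff_zero] at hPκ; exact hPκ rfl
  have hroot : P.IsRoot x := by
    rw [IsRoot, hP, eval_xPoly]
    exact (mem_rts hR _ _).1 hw
  have hb := hroot.norm_lt_cauchyBound hP0
  have hlead : P.leadingCoeff = a κ (b', w) := by
    rw [← coeff_natDegree, hPd]
  have hb2 : (P.cauchyBound : ℝ) ≤ C / c + 1 := by
    unfold cauchyBound
    rw [hPd, hlead]
    push_cast
    apply add_le_add_left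
    have h3 : ((Finset.sup (Finset.range κ) fun i => ‖P.coeff i‖₊ : NNReal) : ℝ) ≤ C := by
      have h4 : (Finset.sup (Finset.range κ) fun i => ‖P.coeff i‖₊ : NNReal) ≤ ⟨C, hC0⟩ := by
        apply Finset.sup_le
        intro i hi
        exact f2 i hi
      exact h4
    exact div_le_div₀ hC0 h3 hcpos f1.le
  have hb3 : ‖x‖ < (P.cauchyBound : ℝ) := by exact_mod_cast hb
  linarith

theorem tendsto_div_pow (Q : ℂ[X]) (κ : ℕ) (hQ : Q.natDegree ≤ κ) :
    Tendsto (fun x : ℂ => Q.eval x / x ^ κ) (cocompact ℂ) (𝓝 (Q.coeff κ)) := by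
  have hinv : Tendsto (fun x : ℂ => x⁻¹) (cocompact ℂ) (𝓝 0) := by
    rw [← Metric.cobounded_eq_cocompact]
    exact tendsto_inv₀_cobounded
  have h1 : ∀ x : ℂ, x ≠ 0 → Q.eval x / x ^ κ =
      ∑ i ∈ Finset.range (κ + 1), Q.coeff i * (x⁻¹) ^ (κ - i) := by
    intro x hx
    rw [Polynomial.eval_eq_sum_range' (Nat.lt_succ_of_le hQ), Finset.sum_div]
    apply Finset.sum_congr rfl
    intro i hi
    rw [Finset.mem_range] at hi
    have h2 : x ^ κ = x ^ i * x ^ (κ - i) := by
      rw [← pow_add]; congr 1; omega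
    rw [h2, inv_pow]
    field_simp
  have h2 : Tendsto (fun x : ℂ => ∑ i ∈ Finset.range (κ + 1), Q.coeff i * (x⁻¹) ^ (κ - i))
      (cocompact ℂ) (𝓝 (∑ i ∈ Finset.range (κ + 1), Q.coeff i * (0 : ℂ) ^ (κ - i))) := by
    apply tendsto_finsetSum
    intro i _
    exact (hinv.pow _).const_mul _
  have h3 : ∑ i ∈ Finset.range (κ + 1), Q.coeff i * (0 : ℂ) ^ (κ - i) = Q.coeff κ := by
    rw [Finset.sum_eq_single κ]
    · simp
    · intro i hi hne
      rw [Finset.mem_range] at hi
      rw [zero_pow (by omega), mul_zero]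
    · intro h
      exact absurd (Finset.mem_range.2 (Nat.lt_succ_self κ)) h
  rw [h3] at h2
  refine h2.congr' ?_
  have h4 : ∀ᶠ x : ℂ in cocompact ℂ, x ≠ 0 := by
    have := (isCompact_singleton (x := (0 : ℂ))).compl_mem_cocompact
    filter_upwards [this] with x hx
    exact hx
  filter_upwards [h4] with x hx
  exact (h1 x hx).symm

lemma fderiv_eq_derivative (R : (MvPolynomial (Fin (m + 1)) ℂ)[X]) (b : Fin m → ℂ) (p x : ℂ) :
    fderiv ℂ (Rf R) (cfg x b, p) (cfg 1 0, 0) = (derivative (xPoly R b p)).eval x := by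
  have h1 : HasDerivAt (fun x : ℂ => Rf R (cfg x b, p))
      (fderiv ℂ (Rf R) (cfg x b, p) (cfg 1 0, 0)) x := by
    have h2 : HasDerivAt (fun x : ℂ => ((cfg 0 b + x • cfg 1 0, p) : (Fin (m + 1) → ℂ) × ℂ))
        (cfg 1 0, 0) x := by
      refine HasDerivAt.prodMk ?_ (hasDerivAt_const _ _)
      simpa using ((hasDerivAt_id x).smul_const (cfg 1 0 : Fin (m + 1) → ℂ)).const_add (cfg 0 b)
    have h3 := (hasStrictFDerivAt_Rf R (cfg 0 b + x • cfg 1 0, p)).hasFDerivAt.comp_hasDerivAt x h2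
    simp only [Function.comp_def, cfg_add] at h3
    exact h3
  have h4 : HasDerivAt (fun x : ℂ => Rf R (cfg x b, p)) ((derivative (xPoly R b p)).eval x) x := by
    have h5 := (xPoly R b p).hasDerivAt x
    have h6 : (fun x : ℂ => Rf R (cfg x b, p)) = fun x => eval x (xPoly R b p) := by
      funext x
      rw [eval_xPoly]
    rw [h6]
    exact h5
  exact h1.unique h4

lemma tendsto_logDeriv (κ : ℕ) (hκ : ∀ b T, (xPoly R b T).natDegree ≤ κ)
    (b : Fin m → ℂ) (p : ℂ) (hp : (xPoly R b p).coeff κ ≠ 0) :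
    Tendsto (fun x : ℂ => x * (fderiv ℂ (Rf R) (cfg x b, p) (cfg 1 0, 0) / Rf R (cfg x b, p)))
      (cocompact ℂ) (𝓝 (κ : ℂ)) := by
  set P := xPoly R b p with hP
  have hPd : P.natDegree ≤ κ := hκ b p
  have hQd : (X * derivative P).natDegree ≤ κ := by
    by_cases h0 : P.natDegree = 0
    · rw [Polynomial.eq_C_of_natDegree_eq_zero h0, derivative_C, mul_zero, natDegree_zero]
      exact Nat.zero_le _
    · refine (natDegree_mul_le).trans ?_
      have := natDegree_derivative_le P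
      rw [natDegree_X]
      omega
  have hQc : (X * derivative P).coeff κ = κ * P.coeff κ := by
    cases κ with
    | zero => simp
    | succ k =>
      rw [coeff_X_mul, coeff_derivative]
      push_cast
      ring
  have h1 := (tendsto_div_pow _ κ hQd).div (tendsto_div_pow _ κ hPd) hp
  rw [hQc, mul_div_assoc, div_self hp, mul_one] at h1
  refine h1.congr' ?_
  have h4 : ∀ᶠ x : ℂ in cocompact ℂ, x ≠ 0 := by
    have := (isCompact_singleton (x := (0 : ℂ))).compl_mem_cocompact
    filter_upwards [this] with x hx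
    exact hx
  filter_upwards [h4] with x hx
  simp only [Pi.div_apply]
  rw [fderiv_eq_derivative, ← eval_xPoly, eval_mul, eval_X, ← hP]
  have hx' : x ^ κ ≠ 0 := pow_ne_zero _ hx
  rw [div_div_div_cancel_right₀ hx', mul_div_assoc]

lemma absurd_of_DR_eq_zero (hR : R.Monic) (hdeg : R.natDegree ≠ 0)
    (hsep : ∀ l : Fin (m + 1) → ℂ, Function.Injective l → (spec R l).Separable)
    (hav : ∀ l : Fin (m + 1) → ℂ, Function.Injective l → ∀ i, l i ∉ rts R l)
    (b : Fin m → ℂ) (hb : Function.Injective b)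
    (h0 : ∀ x ∉ Set.range b, ∀ w ∈ rts R (cfg x b), DR R (cfg x b, w) (cfg 1 0) = 0) : False := by
  have hfin : (Set.range b).Finite := Set.finite_range b
  have h1 : ∀ x ∉ Set.range b, ∀ T ∉ rts R (cfg x b),
      fderiv ℂ (Rf R) (cfg x b, T) (cfg 1 0, 0) = 0 := by
    intro x hx T hT
    have hs := hsep _ (cfg_inj hb hx)
    have h2 := sum_DR_div hR hs (cfg 1 0) T hT
    rw [Finset.sum_eq_zero (fun w hw => by rw [h0 x hx w hw, zero_div])] at h2
    have h3 : Rf R (cfg x b, T) ≠ 0 := fun h => hT ((mem_rts hR _ _).2 h)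
    rcases div_eq_zero_iff.1 h2.symm with h | h
    · exact h
    · exact absurd h h3
  have h2 : ∀ x ∉ Set.range b, ∀ T, fderiv ℂ (Rf R) (cfg x b, T) (cfg 1 0, 0) = 0 := by
    intro x hx
    have hc : Continuous (fun T : ℂ => fderiv ℂ (Rf R) (cfg x b, T) (cfg 1 0, 0)) :=
      (contDiff_fderiv_Rf R _).continuous.comp (by fun_prop)
    have hd : Dense ((rts R (cfg x b) : Set ℂ)ᶜ) :=
      (rts R (cfg x b)).finite_toSet.countable.dense_compl ℂ
    have := hc.ext_on hd continuous_const (fun T hT => h1 x hx T (by simpa using hT))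
    intro T
    exact congrFun this T
  have h3 : ∀ T, derivative (xPoly R b T) = 0 := by
    intro T
    apply Polynomial.eq_zero_of_infinite_isRoot
    apply (hfin.infinite_compl).mono
    intro x hx
    show (derivative (xPoly R b T)).eval x = 0
    rw [← fderiv_eq_derivative]
    exact h2 x hx T
  have h4 : ∀ T x x', Rf R (cfg x b, T) = Rf R (cfg x' b, T) := by
    intro T x x'
    rw [← eval_xPoly, ← eval_xPoly,
      Polynomial.eq_C_of_natDegree_eq_zero (Polynomial.derivative_eq_zero.1 (h3 T)),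
      eval_C, eval_C]
  obtain ⟨x0, hx0⟩ := hfin.infinite_compl.nonempty
  have hcard := card_rts hR (hsep _ (cfg_inj hb hx0))
  obtain ⟨c, hc⟩ : (rts R (cfg x0 b)).Nonempty := by
    rw [← Finset.card_pos, hcard]; omega
  have hc0 := (mem_rts hR _ _).1 hc
  by_cases hcb : c ∈ Set.range b
  · obtain ⟨i, rfl⟩ := hcb
    exact hav _ (cfg_inj hb hx0) i.succ hc
  · apply hav _ (cfg_inj hb hcb) 0
    show c ∈ rts R (cfg c b)
    rw [mem_rts hR, h4 c c x0]
    exact hc0

end Pool.Agent.Helper69.LinKappa
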