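import Pool.Agent.Helper51.LinWeights

/-!
Module POINT of MP_8eda11_ag: elementary pointwise inequalities.
-/

set_option autoImplicit false

namespace Pool.Agent.Helper69.LinPoint

open Pool.Agent.Helper51.Lin Finset

lemma sum_rho_div (a : Fin 3 → ℂ) (ha : Function.Injective a) (w : ℂ) (hw : ∀ i, w ≠ a i) :
    ∑ i, rho a i / (w - a i) = 1 / ∏ i, (w - a i) := by
  have e0 : (univ.erase (0 : Fin 3)) = {1, 2} := by decide
  have e1 : (univ.erase (1 : Fin 3)) = {0, 2} := by decide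
  have e2 : (univ.erase (2 : Fin 3)) = {0, 1} := by decide
  have h01 : a 0 - a 1 ≠ 0 := sub_ne_zero.2 (fun h => absurd (ha h) (by decide))
  have h02 : a 0 - a 2 ≠ 0 := sub_ne_zero.2 (fun h => absurd (ha h) (by decide))
  have h12 : a 1 - a 2 ≠ 0 := sub_ne_zero.2 (fun h => absurd (ha h) (by decide))
  have h10 : a 1 - a 0 ≠ 0 := sub_ne_zero.2 (fun h => absurd (ha h) (by decide))
  have h20 : a 2 - a 0 ≠ 0 := sub_ne_zero.2 (fun h => absurd (ha h) (by decide))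
  have h21 : a 2 - a 1 ≠ 0 := sub_ne_zero.2 (fun h => absurd (ha h) (by decide))
  have w0 : w - a 0 ≠ 0 := sub_ne_zero.2 (hw 0)
  have w1 : w - a 1 ≠ 0 := sub_ne_zero.2 (hw 1)
  have w2 : w - a 2 ≠ 0 := sub_ne_zero.2 (hw 2)
  rw [Fin.sum_univ_three, Fin.prod_univ_three]
  unfold rho
  rw [e0, e1, e2, Finset.prod_pair (by decide), Finset.prod_pair (by decide),
    Finset.prod_pair (by decide)]
  field_simp
  ring

lemma h0_nonneg (u : ℂ) : 0 ≤ h0 u := by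
  unfold h0; positivity

theorem basic1 (M h x y : ℝ) (hM : 0 < M) (hh : 0 ≤ h) :
    h * (x * y) ≤ M * (h * x ^ 2) + M⁻¹ * (h * y ^ 2) := by
  have h1 : x * y ≤ M * x ^ 2 + M⁻¹ * y ^ 2 := by
    have h2 : M⁻¹ * (M * x - y) ^ 2 = M * x ^ 2 + M⁻¹ * y ^ 2 - 2 * (x * y) := by
      field_simp
      ring
    have h3 : 0 ≤ M⁻¹ * (M * x - y) ^ 2 := by positivity
    have h4 : 0 ≤ M * x ^ 2 + M⁻¹ * y ^ 2 := by positivity
    linarith
  calc h * (x * y) ≤ h * (M * x ^ 2 + M⁻¹ * y ^ 2) := mul_le_mul_of_nonneg_left h1 hh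
    _ = _ := by ring

theorem basic2 (M H K x t : ℝ) (hM : 0 < M) (hK : 0 ≤ K) (ht : t ^ 2 ≤ K * H) (hH : 0 ≤ H) :
    x * t ≤ (K + 1) * (M * (H * x ^ 2) + M⁻¹) := by
  have h2 : M⁻¹ * (M * (x * t) - 1) ^ 2 = M * (x ^ 2 * t ^ 2) + M⁻¹ - 2 * (x * t) := by
    field_simp
    ring
  have h3 : 0 ≤ M⁻¹ * (M * (x * t) - 1) ^ 2 := by positivity
  have h4 : M * (x ^ 2 * t ^ 2) ≤ M * (x ^ 2 * (K * H)) := by
    apply mul_le_mul_of_nonneg_left _ hM.le
    exact mul_le_mul_of_nonneg_left ht (sq_nonneg _)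
  have h5 : 0 ≤ M * (H * x ^ 2) := by positivity
  have h6 : 0 < M⁻¹ := inv_pos.2 hM
  have h7 : 0 ≤ K * M⁻¹ := by positivity
  have h8 : 0 ≤ K * (M * (H * x ^ 2)) := by positivity
  nlinarith

theorem pointwise_np (B P : ℝ) (hB : 0 < B) (hP : 0 < P) : ∃ C : ℝ, 0 ≤ C ∧
    ∀ (a v ρ : Fin 3 → ℂ) (w D₀ D : ℂ), (∀ i, ‖ρ i‖ ≤ P) → (∀ i, ‖w - a i‖ ≤ B) →
      (∀ i, w ≠ a i) → ∀ M : ℝ, 0 < M →
      ‖D₀ * ∑ i, ρ i * (D - v i) / (w - a i)‖ ≤
        C * (M * (∑ i, h0 (w - a i) * ‖D₀‖ ^ 2) +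
          M⁻¹ * (1 + ∑ i, h0 (w - a i) * ‖D - v i‖ ^ 2)) := by
  refine ⟨P * (1 + B) ^ 2, by positivity, ?_⟩
  intro a v ρ w D₀ D hρ hw hne M hM
  have h1 : ∀ i, ‖D₀‖ * ‖ρ i * (D - v i) / (w - a i)‖ ≤
      P * (1 + B) ^ 2 * (M * (h0 (w - a i) * ‖D₀‖ ^ 2) +
        M⁻¹ * (h0 (w - a i) * ‖D - v i‖ ^ 2)) := by
    intro i
    have hpos : 0 < ‖w - a i‖ := norm_pos_iff.2 (sub_ne_zero.2 (hne i))
    have h2 : ‖w - a i‖⁻¹ ≤ (1 + B) ^ 2 * h0 (w - a i) := by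
      unfold h0
      have h3 : (1 : ℝ) ≤ (1 + B) ^ 2 * ((1 + ‖w - a i‖) ^ 2)⁻¹ := by
        rw [← div_eq_mul_inv, le_div_iff₀ (by positivity), one_mul]
        exact pow_le_pow_left₀ (by positivity) (by linarith [hw i]) 2
      calc ‖w - a i‖⁻¹ = ‖w - a i‖⁻¹ * 1 := (mul_one _).symm
        _ ≤ ‖w - a i‖⁻¹ * ((1 + B) ^ 2 * ((1 + ‖w - a i‖) ^ 2)⁻¹) :=
          mul_le_mul_of_nonneg_left h3 (by positivity)
        _ = _ := by ring
    rw [norm_div, norm_mul, div_eq_mul_inv]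
    have hb := basic1 M (h0 (w - a i)) ‖D₀‖ ‖D - v i‖ hM (h0_nonneg _)
    have hx : 0 ≤ ‖D₀‖ * ‖D - v i‖ := by positivity
    calc ‖D₀‖ * (‖ρ i‖ * ‖D - v i‖ * ‖w - a i‖⁻¹)
        = ‖ρ i‖ * (‖w - a i‖⁻¹ * (‖D₀‖ * ‖D - v i‖)) := by ring
      _ ≤ P * (((1 + B) ^ 2 * h0 (w - a i)) * (‖D₀‖ * ‖D - v i‖)) := by
          apply mul_le_mul (hρ i) _ (by positivity) hP.le
          exact mul_le_mul_of_nonneg_right h2 hx
      _ = P * (1 + B) ^ 2 * (h0 (w - a i) * (‖D₀‖ * ‖D - v i‖)) := by ring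
      _ ≤ _ := mul_le_mul_of_nonneg_left hb (by positivity)
  have hM1 : 0 ≤ M⁻¹ := (inv_pos.2 hM).le
  calc ‖D₀ * ∑ i, ρ i * (D - v i) / (w - a i)‖
      ≤ ‖D₀‖ * ∑ i, ‖ρ i * (D - v i) / (w - a i)‖ := by
        rw [norm_mul]
        exact mul_le_mul_of_nonneg_left (norm_sum_le _ _) (norm_nonneg _)
    _ = ∑ i, ‖D₀‖ * ‖ρ i * (D - v i) / (w - a i)‖ := Finset.mul_sum _ _ _
    _ ≤ ∑ i, P * (1 + B) ^ 2 * (M * (h0 (w - a i) * ‖D₀‖ ^ 2) +
        M⁻¹ * (h0 (w - a i) * ‖D - v i‖ ^ 2)) := Finset.sum_le_sum (fun i _ => h1 i)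
    _ = P * (1 + B) ^ 2 * (M * (∑ i, h0 (w - a i) * ‖D₀‖ ^ 2) +
        M⁻¹ * (∑ i, h0 (w - a i) * ‖D - v i‖ ^ 2)) := by
        rw [← Finset.mul_sum, Finset.sum_add_distrib, Finset.mul_sum, Finset.mul_sum]
    _ ≤ _ := by
        apply mul_le_mul_of_nonneg_left _ (by positivity)
        rw [mul_add M⁻¹ 1]
        linarith

lemma rho_bound (a : Fin 3 → ℂ) (d : ℝ) (hd : 0 < d) (h : ∀ i j, i ≠ j → d ≤ ‖a i - a j‖)
    (i : Fin 3) : ‖rho a i‖ ≤ (d ^ 2)⁻¹ := by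
  unfold rho
  rw [norm_inv, norm_prod]
  apply inv_anti₀ (by positivity)
  have hcard : (univ.erase i).card = 2 := by
    rw [Finset.card_erase_of_mem (Finset.mem_univ _), Finset.card_univ, Fintype.card_fin]
  rw [← hcard, ← Finset.prod_const]
  exact Finset.prod_le_prod (fun _ _ => hd.le)
    (fun j hj => h i j (Finset.ne_of_mem_erase hj).symm)

theorem pointwise_inf (R₁ d δ : ℝ) (hR₁ : 0 < R₁) (hd : 0 < d) (hδ : 0 < δ) :
    ∃ C : ℝ, 0 ≤ C ∧ ∀ (a v : Fin 3 → ℂ) (w p D₀ D : ℂ), (∀ i, ‖a i‖ ≤ R₁) →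
      (∀ i, ‖v i‖ ≤ R₁) → ‖p‖ ≤ R₁ → (∀ i j, i ≠ j → d ≤ ‖a i - a j‖) → δ ≤ ‖w - p‖ →
      (∀ i, w ≠ a i) → ∀ M : ℝ, 0 < M →
      ‖D₀ * (∑ i, rho a i * (D - v i) / (w - a i) + (∑ i, rho a i * v i) / (w - p))‖ ≤
        C * (M * (∑ i, h0 (w - a i) * ‖D₀‖ ^ 2) +
          M⁻¹ * (1 + ∑ i, h0 (w - a i) * ‖D - v i‖ ^ 2)) := by
  set P := (d ^ 2)⁻¹ with hP
  have hPpos : 0 < P := by rw [hP]; positivity
  set B := 3 * R₁ + 1 with hB
  have hBpos : 0 < B := by rw [hB]; positivity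
  obtain ⟨C1, hC1, hnp⟩ := pointwise_np B P hBpos hPpos
  -- constants
  set t1 := 3 * P * R₁ / δ with ht1
  set K1 := t1 ^ 2 * (B * (1 + B) ^ 2) with hK1
  set K2 := 1152 * R₁ ^ 2 with hK2
  set K3 := 576 * P ^ 2 * R₁ ^ 4 * 18 with hK3
  have hK1' : 0 ≤ K1 := by rw [hK1]; positivity
  have hK2' : 0 ≤ K2 := by rw [hK2]; positivity
  have hK3' : 0 ≤ K3 := by rw [hK3]; positivity
  refine ⟨C1 + (K1 + 1) + 144 + (K2 + 1) + (K3 + 1), by positivity, ?_⟩
  intro a v w p D₀ D ha hv hp hsep hδw hne M hM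
  have hrho := rho_bound a d hd hsep
  have hM1 : 0 < M⁻¹ := inv_pos.2 hM
  set H := ∑ i, h0 (w - a i) with hH
  have hH0 : 0 ≤ H := Finset.sum_nonneg (fun i _ => h0_nonneg _)
  set X := M * (∑ i, h0 (w - a i) * ‖D₀‖ ^ 2) with hX
  set Y := M⁻¹ * (1 + ∑ i, h0 (w - a i) * ‖D - v i‖ ^ 2) with hY
  have hXH : X = M * (H * ‖D₀‖ ^ 2) := by
    rw [hX, hH, Finset.sum_mul]
  have hX0 : 0 ≤ X := by rw [hXH]; positivity
  have hYM : M⁻¹ ≤ Y := by
    rw [hY]
    have : 0 ≤ ∑ i, h0 (w - a i) * ‖D - v i‖ ^ 2 :=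
      Finset.sum_nonneg (fun i _ => mul_nonneg (h0_nonneg _) (by positivity))
    calc M⁻¹ = M⁻¹ * 1 := (mul_one _).symm
      _ ≤ _ := mul_le_mul_of_nonneg_left (by linarith) hM1.le
  have hY0 : 0 ≤ Y := hM1.le.trans hYM
  have hXY : 0 ≤ X + Y := by linarith
  have hb2 : ∀ K t : ℝ, 0 ≤ K → t ^ 2 ≤ K * H → ‖D₀‖ * t ≤ (K + 1) * (X + Y) := by
    intro K t hK ht
    refine (basic2 M H K ‖D₀‖ t hM hK ht hH0).trans ?_
    apply mul_le_mul_of_nonneg_left _ (by linarith)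
    rw [hXH]
    linarith
  have hHi : ∀ i, h0 (w - a i) ≤ H := fun i =>
    Finset.single_le_sum (f := fun i => h0 (w - a i)) (fun i _ => h0_nonneg _) (Finset.mem_univ i)
  have hpos : ∀ i, 0 < ‖w - a i‖ := fun i => norm_pos_iff.2 (sub_ne_zero.2 (hne i))
  have hwp : 0 < ‖w - p‖ := lt_of_lt_of_le hδ hδw
  by_cases hw : ‖w‖ ≤ 2 * R₁ + 1
  · -- bounded case
    have hwa : ∀ i, ‖w - a i‖ ≤ B := by
      intro i
      refine (norm_sub_le _ _).trans ?_
      have := ha i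
      rw [hB]; linarith
    have h1 := hnp a v (rho a) w D₀ D hrho hwa hne M hM
    have h2 : ‖D₀ * ((∑ i, rho a i * v i) / (w - p))‖ ≤ (K1 + 1) * (X + Y) := by
      have h3 : ‖(∑ i, rho a i * v i) / (w - p)‖ ≤ t1 := by
        rw [norm_div, ht1]
        apply div_le_div₀ (by positivity) _ hδ hδw
        calc ‖∑ i, rho a i * v i‖ ≤ ∑ i, ‖rho a i * v i‖ := norm_sum_le _ _
          _ ≤ ∑ _i : Fin 3, P * R₁ := by
              apply Finset.sum_le_sum
              intro i _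
              rw [norm_mul]
              exact mul_le_mul (hrho i) (hv i) (norm_nonneg _) hPpos.le
          _ = 3 * P * R₁ := by simp; ring
      rw [norm_mul]
      refine (mul_le_mul_of_nonneg_left h3 (norm_nonneg _)).trans ?_
      apply hb2 K1 t1 hK1'
      have h4 : 1 ≤ (B * (1 + B) ^ 2) * H := by
        refine le_trans ?_ (mul_le_mul_of_nonneg_left (hHi 0) (by positivity))
        unfold h0
        rw [← mul_inv, ← div_eq_mul_inv, le_div_iff₀ (by have := hpos 0; positivity), one_mul]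
        apply mul_le_mul (hwa 0) _ (by positivity) hBpos.le
        exact pow_le_pow_left₀ (by positivity) (by linarith [hwa 0]) 2
      calc t1 ^ 2 = t1 ^ 2 * 1 := (mul_one _).symm
        _ ≤ t1 ^ 2 * ((B * (1 + B) ^ 2) * H) := mul_le_mul_of_nonneg_left h4 (sq_nonneg _)
        _ = K1 * H := by rw [hK1]; ring
    rw [mul_add]
    refine (norm_add_le _ _).trans ?_
    refine (add_le_add h1 h2).trans ?_
    rw [← add_mul]
    apply mul_le_mul_of_nonneg_right _ hXY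
    linarith
  · -- far case
    push Not at hw
    have hainj : Function.Injective a := by
      intro i j hij
      by_contra hne'
      have := hsep i j hne'
      rw [hij, sub_self, norm_zero] at this
      linarith
    have hw1 : 1 ≤ ‖w‖ := by linarith
    have hw0 : 0 < ‖w‖ := by linarith
    have hlow : ∀ i, ‖w‖ / 2 ≤ ‖w - a i‖ := by
      intro i
      have h1 := norm_sub_norm_le w (a i)
      have h2 := ha i
      linarith
    have hlowp : ‖w‖ / 2 ≤ ‖w - p‖ := by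
      have h1 := norm_sub_norm_le w p
      linarith
    have hup : ‖w - a 0‖ ≤ 2 * ‖w‖ := by
      refine (norm_sub_le _ _).trans ?_
      have h2 := ha 0
      linarith
    have hh0 : 1 / (18 * ‖w‖ ^ 3) ≤ h0 (w - a 0) := by
      unfold h0
      rw [← mul_inv, one_div]
      apply inv_anti₀ (by have := hpos 0; positivity)
      calc ‖w - a 0‖ * (1 + ‖w - a 0‖) ^ 2 ≤ (2 * ‖w‖) * (3 * ‖w‖) ^ 2 := by
            apply mul_le_mul hup _ (by positivity) (by positivity)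
            exact pow_le_pow_left₀ (by positivity) (by linarith) 2
        _ = 18 * ‖w‖ ^ 3 := by ring
    have hw3 : 1 / ‖w‖ ^ 3 ≤ 18 * h0 (w - a 0) := by
      have : 1 / ‖w‖ ^ 3 = 18 * (1 / (18 * ‖w‖ ^ 3)) := by field_simp
      rw [this]
      exact mul_le_mul_of_nonneg_left hh0 (by norm_num)
    set q := 1 / ∏ i, (w - a i) with hq
    have hqb : ‖q‖ ≤ 8 / ‖w‖ ^ 3 := by
      rw [hq, norm_div, norm_one, norm_prod, Fin.prod_univ_three]
      rw [div_le_div_iff₀ (by have := hpos 0; have := hpos 1; have := hpos 2; positivity)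
        (by positivity), one_mul]
      have e0 := hlow 0
      have e1 := hlow 1
      have e2 := hlow 2
      have e3 : (‖w‖ / 2) * (‖w‖ / 2) * (‖w‖ / 2) ≤ ‖w - a 0‖ * ‖w - a 1‖ * ‖w - a 2‖ := by
        gcongr
      calc ‖w‖ ^ 3 = 8 * ((‖w‖ / 2) * (‖w‖ / 2) * (‖w‖ / 2)) := by ring
        _ ≤ _ := mul_le_mul_of_nonneg_left e3 (by norm_num)
    have hrw : ∑ i, rho a i * (D - v i) / (w - a i) + (∑ i, rho a i * v i) / (w - p) =
        D * q - ∑ i, rho a i * v i * ((a i - p) / ((w - a i) * (w - p))) := by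
      rw [hq, ← sum_rho_div a hainj w hne, Finset.mul_sum, Finset.sum_div,
        ← Finset.sum_add_distrib, ← Finset.sum_sub_distrib]
      apply Finset.sum_congr rfl
      intro i _
      have h1 : w - a i ≠ 0 := sub_ne_zero.2 (hne i)
      have h2 : w - p ≠ 0 := norm_pos_iff.1 hwp
      field_simp
      ring
    have hT1 : ‖D₀‖ * ‖D * q‖ ≤ (144 + (K2 + 1)) * (X + Y) := by
      have h1 : ‖D‖ ≤ ‖D - v 0‖ + R₁ := by
        have h2 := norm_add_le (D - v 0) (v 0)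
        rw [sub_add_cancel] at h2
        have := hv 0
        linarith
      have h2 : ‖D₀‖ * (‖q‖ * ‖D - v 0‖) ≤ 144 * (X + Y) := by
        have h3 : ‖q‖ ≤ 144 * h0 (w - a 0) := by
          refine hqb.trans ?_
          have : 8 / ‖w‖ ^ 3 = 8 * (1 / ‖w‖ ^ 3) := by ring
          rw [this]
          linarith
        have h4 := basic1 M (h0 (w - a 0)) ‖D₀‖ ‖D - v 0‖ hM (h0_nonneg _)
        have h5 : M * (h0 (w - a 0) * ‖D₀‖ ^ 2) ≤ X := by
          rw [hXH]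
          apply mul_le_mul_of_nonneg_left _ hM.le
          exact mul_le_mul_of_nonneg_right (hHi 0) (by positivity)
        have h6 : M⁻¹ * (h0 (w - a 0) * ‖D - v 0‖ ^ 2) ≤ Y := by
          rw [hY]
          apply mul_le_mul_of_nonneg_left _ hM1.le
          have := Finset.single_le_sum (f := fun i => h0 (w - a i) * ‖D - v i‖ ^ 2)
            (fun i _ => mul_nonneg (h0_nonneg _) (by positivity)) (Finset.mem_univ (0 : Fin 3))
          linarith
        calc ‖D₀‖ * (‖q‖ * ‖D - v 0‖) = ‖q‖ * (‖D₀‖ * ‖D - v 0‖) := by ring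
          _ ≤ (144 * h0 (w - a 0)) * (‖D₀‖ * ‖D - v 0‖) :=
            mul_le_mul_of_nonneg_right h3 (by positivity)
          _ = 144 * (h0 (w - a 0) * (‖D₀‖ * ‖D - v 0‖)) := by ring
          _ ≤ 144 * (X + Y) := mul_le_mul_of_nonneg_left (by linarith) (by norm_num)
      have h3 : ‖D₀‖ * (‖q‖ * R₁) ≤ (K2 + 1) * (X + Y) := by
        apply hb2 K2 _ hK2'
        have h4 : (‖q‖ * R₁) ^ 2 ≤ (8 / ‖w‖ ^ 3 * R₁) ^ 2 :=
          pow_le_pow_left₀ (by positivity) (mul_le_mul_of_nonneg_right hqb hR₁.le) 2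
        have h5 : (8 / ‖w‖ ^ 3 * R₁) ^ 2 ≤ 64 * R₁ ^ 2 * (1 / ‖w‖ ^ 3) := by
          have e : (8 / ‖w‖ ^ 3 * R₁) ^ 2 = 64 * R₁ ^ 2 * (1 / ‖w‖ ^ 3 * (1 / ‖w‖ ^ 3)) := by
            field_simp
            ring
          rw [e]
          apply mul_le_mul_of_nonneg_left _ (by positivity)
          have e2 : 1 / ‖w‖ ^ 3 ≤ 1 := by
            rw [div_le_one (by positivity)]
            exact one_le_pow₀ hw1
          calc 1 / ‖w‖ ^ 3 * (1 / ‖w‖ ^ 3) ≤ 1 / ‖w‖ ^ 3 * 1 :=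
                mul_le_mul_of_nonneg_left e2 (by positivity)
            _ = _ := mul_one _
        calc (‖q‖ * R₁) ^ 2 ≤ 64 * R₁ ^ 2 * (1 / ‖w‖ ^ 3) := h4.trans h5
          _ ≤ 64 * R₁ ^ 2 * (18 * H) := by
            apply mul_le_mul_of_nonneg_left _ (by positivity)
            have := hHi 0
            linarith
          _ = K2 * H := by rw [hK2]; ring
      calc ‖D₀‖ * ‖D * q‖ = ‖D₀‖ * (‖q‖ * ‖D‖) := by rw [norm_mul, mul_comm ‖D‖]
        _ ≤ ‖D₀‖ * (‖q‖ * (‖D - v 0‖ + R₁)) := by gcongr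
        _ = ‖D₀‖ * (‖q‖ * ‖D - v 0‖) + ‖D₀‖ * (‖q‖ * R₁) := by ring
        _ ≤ 144 * (X + Y) + (K2 + 1) * (X + Y) := add_le_add h2 h3
        _ = _ := by ring
    have hT2 : ‖D₀‖ * ‖∑ i, rho a i * v i * ((a i - p) / ((w - a i) * (w - p)))‖ ≤
        (K3 + 1) * (X + Y) := by
      have h1 : ‖∑ i, rho a i * v i * ((a i - p) / ((w - a i) * (w - p)))‖ ≤
          24 * P * R₁ ^ 2 * (1 / ‖w‖ ^ 2) := by
        calc ‖∑ i, rho a i * v i * ((a i - p) / ((w - a i) * (w - p)))‖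
            ≤ ∑ i, ‖rho a i * v i * ((a i - p) / ((w - a i) * (w - p)))‖ := norm_sum_le _ _
          _ ≤ ∑ _i : Fin 3, P * R₁ * (2 * R₁ / ((‖w‖ / 2) * (‖w‖ / 2))) := by
              apply Finset.sum_le_sum
              intro i _
              rw [norm_mul, norm_mul, norm_div, norm_mul]
              have e1 : ‖a i - p‖ ≤ 2 * R₁ := by
                refine (norm_sub_le _ _).trans ?_
                have := ha i
                linarith
              apply mul_le_mul (mul_le_mul (hrho i) (hv i) (norm_nonneg _) hPpos.le) _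
                (by positivity) (by positivity)
              apply div_le_div₀ (by positivity) e1 (by positivity)
              exact mul_le_mul (hlow i) hlowp (by positivity) (norm_nonneg _)
          _ = 24 * P * R₁ ^ 2 * (1 / ‖w‖ ^ 2) := by
              simp only [Finset.sum_const, Finset.card_univ, Fintype.card_fin, nsmul_eq_mul]
              field_simp
              ring
      refine (mul_le_mul_of_nonneg_left h1 (norm_nonneg _)).trans ?_
      apply hb2 K3 _ hK3'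
      have h4 : (24 * P * R₁ ^ 2 * (1 / ‖w‖ ^ 2)) ^ 2 ≤ 576 * P ^ 2 * R₁ ^ 4 * (1 / ‖w‖ ^ 3) := by
        have e : (24 * P * R₁ ^ 2 * (1 / ‖w‖ ^ 2)) ^ 2 =
            576 * P ^ 2 * R₁ ^ 4 * (1 / ‖w‖ ^ 3 * (1 / ‖w‖)) := by
          field_simp
          ring
        rw [e]
        apply mul_le_mul_of_nonneg_left _ (by positivity)
        have e2 : 1 / ‖w‖ ≤ 1 := by
          rw [div_le_one hw0]
          exact hw1
        calc 1 / ‖w‖ ^ 3 * (1 / ‖w‖) ≤ 1 / ‖w‖ ^ 3 * 1 :=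
              mul_le_mul_of_nonneg_left e2 (by positivity)
          _ = _ := mul_one _
      calc (24 * P * R₁ ^ 2 * (1 / ‖w‖ ^ 2)) ^ 2 ≤ 576 * P ^ 2 * R₁ ^ 4 * (1 / ‖w‖ ^ 3) := h4
        _ ≤ 576 * P ^ 2 * R₁ ^ 4 * (18 * H) := by
          apply mul_le_mul_of_nonneg_left _ (by positivity)
          have := hHi 0
          linarith
        _ = K3 * H := by rw [hK3]; ring
    rw [hrw, norm_mul]
    calc ‖D₀‖ * ‖D * q - ∑ i, rho a i * v i * ((a i - p) / ((w - a i) * (w - p)))‖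
        ≤ ‖D₀‖ * (‖D * q‖ + ‖∑ i, rho a i * v i * ((a i - p) / ((w - a i) * (w - p)))‖) :=
          mul_le_mul_of_nonneg_left (norm_sub_le _ _) (norm_nonneg _)
      _ ≤ (144 + (K2 + 1)) * (X + Y) + (K3 + 1) * (X + Y) := by
          rw [mul_add]; exact add_le_add hT1 hT2
      _ = (144 + (K2 + 1) + (K3 + 1)) * (X + Y) := by ring
      _ ≤ _ := by
          apply mul_le_mul_of_nonneg_right _ hXY
          linarith

end Pool.Agent.Helper69.LinPoint
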